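import Pool.Agent.Lib_helper32.Gen.Kern

/-! Local charts of `D1` (implicit function theorem). -/

set_option autoImplicit false

namespace Pool.Agent.Lib_helper32.Gen

open scoped InnerProductSpace NNReal
open Complex Set Metric Filter Topology Module Pool.Agent.Flip

noncomputable section

/-- the defining map of pairs (point of `D1`, normalised kernel vector) -/
def GG (Φ : Sys) (k₀ : V) (p : W × V) : ℝ × V × (ℝ × ℝ) :=
  (‖p.1‖ ^ 2, A Φ p.1 p.2, nrm k₀ p.2)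

/-- its derivative at `(w₀, k₀)` -/
def DG (Φ : Sys) (w₀ : W) (k₀ : V) : W × V →L[ℝ] ℝ × V × (ℝ × ℝ) :=
  ((2 • innerSL ℝ w₀).comp (ContinuousLinearMap.fst ℝ W V)).prod
    (((A Φ w₀).comp (ContinuousLinearMap.snd ℝ W V) +
      ((ALc Φ).comp (ContinuousLinearMap.fst ℝ W V)).flip k₀).prod
      ((nrm k₀).comp (ContinuousLinearMap.snd ℝ W V)))

lemma DG_apply (Φ : Sys) (w₀ : W) (k₀ : V) (w : W) (z : V) :
    DG Φ w₀ k₀ (w, z) = (2 * ⟪w₀, w⟫_ℝ, A Φ w₀ z + A Φ w k₀, nrm k₀ z) := by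
  simp [DG, two_mul]

lemma hasStrictFDerivAt_GG (Φ : Sys) (w₀ : W) (k₀ : V) :
    HasStrictFDerivAt (GG Φ k₀) (DG Φ w₀ k₀) (w₀, k₀) := by
  unfold GG DG
  refine HasStrictFDerivAt.prodMk ?_ (HasStrictFDerivAt.prodMk ?_ ?_)
  · have h1 := (hasStrictFDerivAt_norm_sq w₀)
    have h2 : HasStrictFDerivAt (fun p : W × V => p.1) (ContinuousLinearMap.fst ℝ W V) (w₀, k₀) :=
      hasStrictFDerivAt_fst
    exact HasStrictFDerivAt.comp (g := fun x : W => ‖x‖ ^ 2) (f := fun p : W × V => p.1)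
      (w₀, k₀) h1 h2
  · have h1 : HasStrictFDerivAt (fun p : W × V => ALc Φ p.1)
        ((ALc Φ).comp (ContinuousLinearMap.fst ℝ W V)) (w₀, k₀) :=
      ((ALc Φ).comp (ContinuousLinearMap.fst ℝ W V)).hasStrictFDerivAt
    have h2 : HasStrictFDerivAt (fun p : W × V => p.2)
        (ContinuousLinearMap.snd ℝ W V) (w₀, k₀) := hasStrictFDerivAt_snd
    exact h1.clm_apply h2
  · exact ((nrm k₀).comp (ContinuousLinearMap.snd ℝ W V)).hasStrictFDerivAt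

/-- the three vectors `w₀, q(k₀), B(k₀, J k₀)` are independent; hence the corresponding
functionals are jointly surjective -/
lemma exists_w {Φ : Sys} (hS : Symm Φ) (hZ : ZeroFree Φ) {w₀ : W} (hw : ‖w₀‖ = 1) {k₀ : V}
    (hk : UnitKer Φ w₀ k₀) (r a b : ℝ) :
    ∃ w : W, ⟪w₀, w⟫_ℝ = r ∧ ⟪w, q Φ k₀⟫_ℝ = a ∧ ⟪w, B Φ k₀ (J k₀)⟫_ℝ = b := by
  have hk0 : k₀ ≠ 0 := by
    intro h; have := hk.norm_eq; rw [h, norm_zero] at this; exact zero_ne_one this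
  have e1 : ⟪w₀, q Φ k₀⟫_ℝ = 0 := by
    rw [← inner_A_self, hk.ker_eq, inner_zero_left]
  have e2 : ⟪w₀, B Φ k₀ (J k₀)⟫_ℝ = 0 := by
    rw [← inner_A' hS, hk.ker_eq, inner_zero_left]
  have hli : LinearIndependent ℝ ![q Φ k₀, B Φ k₀ (J k₀)] := by
    rw [LinearIndependent.pair_iff]
    intro β γ h
    -- choose `s + i t` a square root of `β + i γ`
    obtain ⟨ζ, hζ⟩ : ∃ ζ : ℂ, ζ ^ 2 = (β + γ * I : ℂ) := by
      obtain ⟨ζ, hζ⟩ := IsAlgClosed.exists_pow_nat_eq (β + γ * I : ℂ) (n := 2) (by norm_num)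
      exact ⟨ζ, hζ⟩
    have hre : ζ.re ^ 2 - ζ.im ^ 2 = β := by
      have := congrArg Complex.re hζ
      simp [sq] at this
      linarith
    have him : 2 * ζ.re * ζ.im = γ := by
      have := congrArg Complex.im hζ
      simp [sq] at this
      linarith
    have hq : q Φ (ζ.re • k₀ + ζ.im • J k₀) = 0 := by
      have h3 : q Φ (ζ.re • k₀ + ζ.im • J k₀) =
          (ζ.re ^ 2) • q Φ k₀ + (2 * ζ.re * ζ.im) • B Φ k₀ (J k₀) + (ζ.im ^ 2) • q Φ (J k₀) := by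
        unfold q
        simp only [map_add, map_smul, LinearMap.add_apply, LinearMap.smul_apply]
        rw [B_symm hS (J k₀) k₀]
        module
      rw [h3, q_J]
      have h4 : (ζ.re ^ 2) • q Φ k₀ + (2 * ζ.re * ζ.im) • B Φ k₀ (J k₀) +
          (ζ.im ^ 2) • -q Φ k₀ = (ζ.re ^ 2 - ζ.im ^ 2) • q Φ k₀ +
          (2 * ζ.re * ζ.im) • B Φ k₀ (J k₀) := by module
      rw [h4, hre, him, h]
    have h5 := hZ _ hq
    have h6 : ⟪k₀, ζ.re • k₀ + ζ.im • J k₀⟫_ℝ = 0 := by rw [h5, inner_zero_right]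
    have h7 : ⟪J k₀, ζ.re • k₀ + ζ.im • J k₀⟫_ℝ = 0 := by rw [h5, inner_zero_right]
    have hkk : ⟪k₀, k₀⟫_ℝ = 1 := by rw [real_inner_self_eq_norm_sq, hk.norm_eq]; norm_num
    have hJk : ⟪J k₀, J k₀⟫_ℝ = 1 := by rw [inner_J, hkk]
    have hJ0 : ⟪J k₀, k₀⟫_ℝ = 0 := inner_J_self k₀
    have hJ0' : ⟪k₀, J k₀⟫_ℝ = 0 := by rw [real_inner_comm]; exact hJ0
    simp only [inner_add_right, inner_smul_right, hkk, hJ0, hJ0', hJk] at h6 h7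
    have h8 : ζ.re = 0 := by linarith
    have h9 : ζ.im = 0 := by linarith
    rw [h8, h9] at hre him
    constructor <;> linarith
  have hww : ⟪w₀, w₀⟫_ℝ = 1 := by rw [real_inner_self_eq_norm_sq, hw]; norm_num
  -- the Gram matrix of the pair is invertible
  set x := q Φ k₀
  set y := B Φ k₀ (J k₀)
  have hgram : ⟪x, x⟫_ℝ * ⟪y, y⟫_ℝ - ⟪x, y⟫_ℝ ^ 2 ≠ 0 := by
    intro h0
    have hx0 : x ≠ 0 := by
      intro hx
      have := (LinearIndependent.pair_iff.1 hli) 1 0 (by rw [hx]; simp)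
      exact one_ne_zero this.1
    have hxx : 0 < ⟪x, x⟫_ℝ := by
      rw [real_inner_self_eq_norm_sq]; have := norm_pos_iff.2 hx0; positivity
    have h1 : ⟪⟪x, x⟫_ℝ • y - ⟪x, y⟫_ℝ • x, ⟪x, x⟫_ℝ • y - ⟪x, y⟫_ℝ • x⟫_ℝ =
        ⟪x, x⟫_ℝ * (⟪x, x⟫_ℝ * ⟪y, y⟫_ℝ - ⟪x, y⟫_ℝ ^ 2) := by
      simp only [inner_sub_left, inner_sub_right, real_inner_smul_left, real_inner_smul_right]
      rw [real_inner_comm x y]
      ring
    rw [h0, mul_zero, inner_self_eq_zero] at h1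
    have h2 := (LinearIndependent.pair_iff.1 hli) (-⟪x, y⟫_ℝ) ⟪x, x⟫_ℝ (by
      rw [← h1]; module)
    exact hxx.ne' h2.2
  set Δ := ⟪x, x⟫_ℝ * ⟪y, y⟫_ℝ - ⟪x, y⟫_ℝ ^ 2 with hΔ
  refine ⟨r • w₀ + ((a * ⟪y, y⟫_ℝ - b * ⟪x, y⟫_ℝ) / Δ) • x +
    ((b * ⟪x, x⟫_ℝ - a * ⟪x, y⟫_ℝ) / Δ) • y, ?_, ?_, ?_⟩
  · simp only [inner_add_right, inner_smul_right, hww]
    rw [e1, e2]; ring
  · simp only [inner_add_left, real_inner_smul_left]
    rw [e1, real_inner_comm x y]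
    field_simp
    rw [hΔ]
    ring
  · simp only [inner_add_left, real_inner_smul_left]
    rw [e2]
    field_simp
    rw [hΔ]
    ring

lemma DG_surjective {Φ : Sys} (hS : Symm Φ) (hZ : ZeroFree Φ) {w₀ : W} (hw : ‖w₀‖ = 1) {k₀ : V}
    (hk : UnitKer Φ w₀ k₀) : Function.Surjective (DG Φ w₀ k₀) := by
  rintro ⟨r, y, a, b⟩
  have hkk : ⟪k₀, k₀⟫_ℝ = 1 := by rw [real_inner_self_eq_norm_sq, hk.norm_eq]; norm_num
  have hJk : ⟪J k₀, J k₀⟫_ℝ = 1 := by rw [inner_J, hkk]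
  have hJ0 : ⟪J k₀, k₀⟫_ℝ = 0 := inner_J_self k₀
  have hJ0' : ⟪k₀, J k₀⟫_ℝ = 0 := by rw [real_inner_comm]; exact hJ0
  obtain ⟨w, h1, h2, h3⟩ := exists_w hS hZ hw hk (r / 2) ⟪k₀, y⟫_ℝ ⟪J k₀, y⟫_ℝ
  -- `y - A w k₀` is orthogonal to the kernel, hence in the range of `A w₀`
  have hsym := A_sym hS w₀
  obtain ⟨z, hz⟩ : ∃ z, A Φ w₀ z = y - A Φ w k₀ := by
    have h4 : y - A Φ w k₀ ∈ (LinearMap.ker (A Φ w₀ : V →ₗ[ℝ] V))ᗮ := by
      rw [Submodule.mem_orthogonal]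
      intro x hx
      have hx' := hk.span x hx
      have e1 : ⟪k₀, y - A Φ w k₀⟫_ℝ = 0 := by
        rw [inner_sub_right, real_inner_comm (A Φ w k₀) k₀, inner_A_self, h2, sub_self]
      have e2 : ⟪J k₀, y - A Φ w k₀⟫_ℝ = 0 := by
        rw [inner_sub_right, real_inner_comm (A Φ w k₀) (J k₀), inner_A' hS, h3, sub_self]
      rw [hx', inner_add_left, real_inner_smul_left, real_inner_smul_left, e1, e2]
      ring
    have h5 : (LinearMap.ker (A Φ w₀ : V →ₗ[ℝ] V))ᗮ = LinearMap.range (A Φ w₀ : V →ₗ[ℝ] V) := by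
      have h6 := (Sym.isSymmetric hsym).orthogonal_range
      rw [← h6, Submodule.orthogonal_orthogonal]
    rw [h5] at h4
    exact h4
  refine ⟨(w, z + (a - ⟪k₀, z⟫_ℝ) • k₀ + (b - ⟪J k₀, z⟫_ℝ) • J k₀), ?_⟩
  rw [DG_apply, nrm_apply]
  have hAJ : A Φ w₀ (J k₀) = 0 := A_J_eq_zero hk.ker_eq
  refine Prod.ext_iff.2 ⟨by rw [h1]; ring, Prod.ext_iff.2 ⟨?_, Prod.ext_iff.2 ⟨?_, ?_⟩⟩⟩
  · simp only [map_add, map_smul, hk.ker_eq, hAJ, smul_zero, add_zero]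
    rw [hz]; abel
  · simp only [inner_add_right, inner_smul_right, hkk, hJ0']
    ring
  · simp only [inner_add_right, inner_smul_right, hJk, hJ0]
    ring

lemma finrank_ker_DG {Φ : Sys} (hS : Symm Φ) (hZ : ZeroFree Φ) {w₀ : W} (hw : ‖w₀‖ = 1) {k₀ : V}
    (hk : UnitKer Φ w₀ k₀) : finrank ℝ (LinearMap.ker (DG Φ w₀ k₀ : W × V →ₗ[ℝ] ℝ × V × (ℝ × ℝ))) = 4 := by
  have h1 := (DG Φ w₀ k₀ : W × V →ₗ[ℝ] ℝ × V × (ℝ × ℝ)).finrank_range_add_finrank_ker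
  have h2 : LinearMap.range (DG Φ w₀ k₀ : W × V →ₗ[ℝ] ℝ × V × (ℝ × ℝ)) = ⊤ :=
    LinearMap.range_eq_top.2 (DG_surjective hS hZ hw hk)
  rw [h2, finrank_top] at h1
  simp only [Module.finrank_prod, finrank_V, finrank_W, Module.finrank_self] at h1
  omega

/-- **Local charts of `D1`**: near every point of `D1` there is a Lipschitz parametrisation by an
open subset of `ℝ⁴`, with continuous inverse and a Lipschitz nonzero kernel vector. -/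
theorem D1_chart {Φ : Sys} (hS : Symm Φ) (hZ : ZeroFree Φ) {w₀ : W} (hw : w₀ ∈ D1 Φ) :
    ∃ (U : Set W) (O : Set (Fin 4 → ℝ)) (p : (Fin 4 → ℝ) → W) (k : (Fin 4 → ℝ) → V)
      (ψ : W → (Fin 4 → ℝ)) (C : ℝ≥0),
      IsOpen U ∧ w₀ ∈ U ∧ IsOpen O ∧ LipschitzOnWith C p O ∧ LipschitzOnWith C k O ∧
      ContinuousOn ψ (U ∩ D1 Φ) ∧
      (∀ w ∈ U ∩ D1 Φ, ψ w ∈ O ∧ p (ψ w) = w ∧ k (ψ w) ≠ 0 ∧ A Φ w (k (ψ w)) = 0) := by
  obtain ⟨k₀, hk⟩ := exists_unitKer hw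
  obtain ⟨U₁, kk, C₁, hU₁, hw₁, hkL, hkk, hkw⟩ := exists_kernel_section hk
  have hf := hasStrictFDerivAt_GG Φ w₀ k₀
  have hsurj : (DG Φ w₀ k₀).range = ⊤ := by
    exact LinearMap.range_eq_top.2 (DG_surjective hS hZ hw.1 hk)
  set Kf := (DG Φ w₀ k₀).ker with hKf
  have hfr : finrank ℝ Kf = 4 := finrank_ker_DG hS hZ hw.1 hk
  let e : (Fin 4 → ℝ) ≃L[ℝ] Kf := ContinuousLinearEquiv.ofFinrankEq (by rw [hfr]; simp)
  -- the chart map
  set φ : Kf → W × V := hf.implicitFunction (GG Φ k₀) (DG Φ w₀ k₀) hsurj (GG Φ k₀ (w₀, k₀)) with hφ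
  set H := hf.implicitToOpenPartialHomeomorph (GG Φ k₀) (DG Φ w₀ k₀) hsurj with hH
  have hφ1 : HasStrictFDerivAt φ (Kf.subtypeL) 0 := hf.to_implicitFunction hsurj
  obtain ⟨C₂, O₂, hO₂, hL⟩ := hφ1.exists_lipschitzOnWith
  obtain ⟨O₃, hO₃s, hO₃, h0₃⟩ := _root_.mem_nhds_iff.1 hO₂
  have heq := hf.eq_implicitFunction hsurj
  -- the point associated with `w`
  have hcont : ContinuousOn (fun w => (w, kk w)) (U₁ ∩ D1 Φ) :=
    continuousOn_id.prodMk hkL.continuousOn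
  have hsrc : (w₀, k₀) ∈ H.source := hf.mem_implicitToOpenPartialHomeomorph_source hsurj
  have hHc : ContinuousOn (fun x => (H x).2) H.source := continuous_snd.comp_continuousOn H.continuousOn
  have hH0 : (H (w₀, k₀)).2 = 0 := by
    rw [hH, hf.implicitToOpenPartialHomeomorph_self hsurj]
  -- the good set of pairs
  have hev : ∀ᶠ x in 𝓝 (w₀, k₀), x ∈ H.source ∧
      hf.implicitFunction (GG Φ k₀) (DG Φ w₀ k₀) hsurj (GG Φ k₀ x) (H x).2 = x ∧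
      (H x).2 ∈ O₃ ∧ x.2 ≠ 0 := by
    have hs1 : ∀ᶠ x in 𝓝 (w₀, k₀), x ∈ H.source := H.open_source.mem_nhds hsrc
    refine hs1.and (heq.and (Filter.Eventually.and ?_ ?_))
    · have h1 : ContinuousAt (fun x => (H x).2) (w₀, k₀) :=
        hHc.continuousAt (H.open_source.mem_nhds hsrc)
      exact h1.preimage_mem_nhds (by rw [hH0]; exact hO₃.mem_nhds h0₃)
    · have h2 : ContinuousAt (fun x : W × V => x.2) (w₀, k₀) := continuousAt_snd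
      refine h2.preimage_mem_nhds (isOpen_compl_singleton.mem_nhds ?_)
      intro h
      have := hk.norm_eq
      have h' : k₀ = 0 := h
      rw [h', norm_zero] at this
      exact zero_ne_one this
  obtain ⟨S, hSs, hSo, hS0⟩ := _root_.mem_nhds_iff.1 hev
  -- an open set `U` with `(w, kk w) ∈ S` on `U ∩ D1`
  obtain ⟨U₂, hU₂, hU₂eq⟩ := (_root_.continuousOn_iff'.1 hcont) S hSo
  have hw₂ : w₀ ∈ U₂ := by
    have h1 : w₀ ∈ (fun w => (w, kk w)) ⁻¹' S ∩ (U₁ ∩ D1 Φ) := by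
      refine ⟨?_, hw₁, hw⟩
      change (w₀, kk w₀) ∈ S
      rw [hkw hw]; exact hS0
    rw [hU₂eq] at h1
    exact h1.1
  have hmemS : ∀ w ∈ (U₁ ∩ U₂) ∩ D1 Φ, (w, kk w) ∈ S := by
    rintro w ⟨⟨h1, h2⟩, h3⟩
    have h4 : w ∈ U₂ ∩ (U₁ ∩ D1 Φ) := ⟨h2, h1, h3⟩
    rw [← hU₂eq] at h4
    exact h4.1
  have hGG : ∀ w ∈ (U₁ ∩ U₂) ∩ D1 Φ, GG Φ k₀ (w, kk w) = GG Φ k₀ (w₀, k₀) := by
    rintro w ⟨⟨h1, h2⟩, h3⟩
    obtain ⟨e1, e2, e3⟩ := hkk w ⟨h1, h3⟩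
    have hkk1 : ⟪k₀, k₀⟫_ℝ = 1 := by rw [real_inner_self_eq_norm_sq, hk.norm_eq]; norm_num
    have hJ0 : ⟪J k₀, k₀⟫_ℝ = 0 := inner_J_self k₀
    simp only [GG, nrm_apply, e1, e2, e3, h3.1, hw.1, hk.ker_eq, hkk1, hJ0]
  refine ⟨U₁ ∩ U₂, e ⁻¹' O₃, fun s => (φ (e s)).1, fun s => (φ (e s)).2,
    fun w => e.symm (H (w, kk w)).2, C₂ * ‖(e : (Fin 4 → ℝ) →L[ℝ] Kf)‖₊, hU₁.inter hU₂,
    ⟨hw₁, hw₂⟩, hO₃.preimage e.continuous, ?_, ?_, ?_, ?_⟩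
  · have h1 : LipschitzOnWith (C₂ * ‖(e : (Fin 4 → ℝ) →L[ℝ] Kf)‖₊) (fun s => φ (e s)) (e ⁻¹' O₃) :=
      (hL.mono hO₃s).comp (e.lipschitz.lipschitzOnWith) (fun s hs => hs)
    have h2 := LipschitzWith.prod_fst.comp_lipschitzOnWith h1
    rw [one_mul] at h2
    exact h2
  · have h1 : LipschitzOnWith (C₂ * ‖(e : (Fin 4 → ℝ) →L[ℝ] Kf)‖₊) (fun s => φ (e s)) (e ⁻¹' O₃) :=
      (hL.mono hO₃s).comp (e.lipschitz.lipschitzOnWith) (fun s hs => hs)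
    have h2 := LipschitzWith.prod_snd.comp_lipschitzOnWith h1
    rw [one_mul] at h2
    exact h2
  · refine e.symm.continuous.comp_continuousOn ?_
    refine hHc.comp (hcont.mono ?_) ?_
    · rintro w ⟨⟨h1, h2⟩, h3⟩; exact ⟨h1, h3⟩
    · intro w hw'
      exact (hSs (hmemS w hw')).1
  · intro w hw'
    obtain ⟨s1, s2, s3, s4⟩ := hSs (hmemS w hw')
    rw [hGG w hw'] at s2
    have s2' : φ (H (w, kk w)).2 = (w, kk w) := s2
    refine ⟨?_, ?_, ?_, ?_⟩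
    · change e (e.symm (H (w, kk w)).2) ∈ O₃
      rw [e.apply_symm_apply]; exact s3
    · change (φ (e (e.symm (H (w, kk w)).2))).1 = w
      rw [e.apply_symm_apply, s2']
    · change (φ (e (e.symm (H (w, kk w)).2))).2 ≠ 0
      rw [e.apply_symm_apply, s2']; exact s4
    · change A Φ w (φ (e (e.symm (H (w, kk w)).2))).2 = 0
      rw [e.apply_symm_apply, s2']
      exact (hkk w ⟨hw'.1.1, hw'.2⟩).1

end

end Pool.Agent.Lib_helper32.Gen
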