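import Mathlib

/-! Images of locally Lipschitz maps between finite dimensional spaces:
* lower dimensional sources have null images;
* in equal dimension almost every value is a regular value (Rademacher + Sard). -/

open MeasureTheory Set Module Topology Filter
open scoped NNReal ENNReal

namespace Pool.Agent.Lib_helper32.Gen

/-- `f` is Lipschitz in a neighbourhood (within `s`) of every point of `s`. -/
def LocLip {X Y : Type*} [PseudoEMetricSpace X] [PseudoEMetricSpace Y] (f : X → Y) (s : Set X) : Prop :=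
  ∀ x ∈ s, ∃ C : ℝ≥0, ∃ t ∈ 𝓝[s] x, LipschitzOnWith C f t

section null

variable {E F : Type*} [NormedAddCommGroup E] [NormedSpace ℝ E] [FiniteDimensional ℝ E]
  [NormedAddCommGroup F] [NormedSpace ℝ F] [FiniteDimensional ℝ F] [MeasurableSpace F]
  [BorelSpace F]

/-- sets of small Hausdorff dimension are null for Haar measure -/
theorem null_of_dimH_lt (μ : Measure F) [μ.IsAddHaarMeasure] {s : Set F}
    (h : dimH s < finrank ℝ F) : μ s = 0 := by
  have h1 : μ ≪ (μH[finrank ℝ F] : Measure F) := by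
    rw [Measure.isAddLeftInvariant_eq_smul μ (μH[finrank ℝ F] : Measure F)]
    exact Measure.smul_absolutelyContinuous
  refine measure_zero_of_dimH_lt (d := (finrank ℝ F : ℝ≥0)) ?_ ?_
  · simpa using h1
  · simpa using h

theorem null_image_of_finrank_lt (μ : Measure F) [μ.IsAddHaarMeasure]
    (h : finrank ℝ E < finrank ℝ F) {f : E → F} {s : Set E} (hf : LocLip f s) :
    μ (f '' s) = 0 := by
  apply null_of_dimH_lt
  calc dimH (f '' s) ≤ dimH s := dimH_image_le_of_locally_lipschitzOn hf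
    _ ≤ dimH (univ : Set E) := dimH_mono (subset_univ s)
    _ = finrank ℝ E := Real.dimH_univ_eq_finrank E
    _ < finrank ℝ F := by exact_mod_cast h

end null

section isolated

/-- A locally Lipschitz map of `F` to itself maps null sets to null sets. -/
theorem null_image_of_null {F : Type*} [NormedAddCommGroup F] [NormedSpace ℝ F]
    [FiniteDimensional ℝ F] [MeasurableSpace F] [BorelSpace F]
    (μ : Measure F) [μ.IsAddHaarMeasure] {g : F → F} {s : Set F} (hg : LocLip g s)
    (h0 : μ s = 0) : μ (g '' s) = 0 := by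
  have h1 : μ ≪ (μH[finrank ℝ F] : Measure F) := by
    rw [Measure.isAddLeftInvariant_eq_smul μ (μH[finrank ℝ F] : Measure F)]
    exact Measure.smul_absolutelyContinuous
  have h2 : (μH[finrank ℝ F] : Measure F) ≪ μ := by
    rw [Measure.isAddLeftInvariant_eq_smul (μH[finrank ℝ F] : Measure F) μ]
    exact Measure.smul_absolutelyContinuous
  choose! C t ht hL using hg
  obtain ⟨T, hTs, hTc, hT⟩ := TopologicalSpace.countable_cover_nhdsWithin ht
  apply h1
  have h3 : g '' s ⊆ ⋃ x ∈ T, g '' (s ∩ t x) := by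
    rintro _ ⟨x, hx, rfl⟩
    obtain ⟨y, hy, hxy⟩ := mem_iUnion₂.1 (hT hx)
    exact mem_iUnion₂.2 ⟨y, hy, x, ⟨hx, hxy⟩, rfl⟩
  refine measure_mono_null h3 ?_
  rw [measure_biUnion_null_iff hTc]
  intro x hx
  have h4 := ((hL x (hTs hx)).mono (inter_subset_right (s := s) (t := t x))).hausdorffMeasure_image_le
    (d := (finrank ℝ F : ℝ)) (by positivity)
  have h5 : (μH[(finrank ℝ F : ℝ)] : Measure F) (s ∩ t x) = 0 :=
    h2 (measure_mono_null inter_subset_left h0)
  rw [h5, mul_zero] at h4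
  exact le_antisymm h4 zero_le

theorem ae_regular_value_self {F : Type*} [NormedAddCommGroup F] [NormedSpace ℝ F]
    [FiniteDimensional ℝ F] [MeasurableSpace F] [BorelSpace F]
    (μ : Measure F) [μ.IsAddHaarMeasure] {g : F → F} {s : Set F} (hs : IsOpen s)
    (hg : LocLip g s) :
    ∀ᵐ y ∂μ, ∀ x ∈ s, g x = y → ∃ g' : F ≃L[ℝ] F, HasFDerivAt g (g' : F →L[ℝ] F) x := by
  set bad1 : Set F := {x | x ∈ s ∧ ¬ DifferentiableAt ℝ g x} with hb1
  set bad2 : Set F := {x | x ∈ s ∧ DifferentiableAt ℝ g x ∧ (fderiv ℝ g x).det = 0} with hb2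
  have n1 : μ bad1 = 0 := by
    refine measure_null_of_locally_null _ fun x hx => ?_
    obtain ⟨C, t, ht, hL⟩ := hg x hx.1
    have ht' : t ∈ 𝓝 x := by
      rwa [hs.nhdsWithin_eq hx.1] at ht
    obtain ⟨V, hVt, hVo, hxV⟩ := mem_nhds_iff.1 ht'
    refine ⟨bad1 ∩ V, inter_mem self_mem_nhdsWithin (mem_nhdsWithin_of_mem_nhds (hVo.mem_nhds hxV)), ?_⟩
    have h6 := (hL.mono hVt).ae_differentiableWithinAt_of_mem (μ := μ)
    refine measure_mono_null ?_ h6
    rintro z ⟨hz, hzV⟩ h7
    exact hz.2 ((h7 hzV).differentiableAt (hVo.mem_nhds hzV))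
  have i1 : μ (g '' bad1) = 0 := by
    refine null_image_of_null μ (fun x hx => ?_) n1
    obtain ⟨C, t, ht, hL⟩ := hg x hx.1
    exact ⟨C, t, nhdsWithin_mono x (fun z hz => hz.1) ht, hL⟩
  have i2 : μ (g '' bad2) = 0 := by
    refine addHaar_image_eq_zero_of_det_fderivWithin_eq_zero μ (f' := fun x => fderiv ℝ g x)
      (fun x hx => hx.2.1.hasFDerivAt.hasFDerivWithinAt) (fun x hx => hx.2.2)
  have i3 : ∀ᵐ y ∂μ, y ∉ g '' bad1 := measure_eq_zero_iff_ae_notMem.1 i1
  have i4 : ∀ᵐ y ∂μ, y ∉ g '' bad2 := measure_eq_zero_iff_ae_notMem.1 i2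
  filter_upwards [i3, i4] with y h1 h2 x hx hxy
  have hd : DifferentiableAt ℝ g x := by
    by_contra h
    exact h1 ⟨x, ⟨hx, h⟩, hxy⟩
  have hdet : (fderiv ℝ g x).det ≠ 0 := fun h => h2 ⟨x, ⟨hx, hd, h⟩, hxy⟩
  refine ⟨(fderiv ℝ g x).toContinuousLinearEquivOfDetNeZero hdet, ?_⟩
  simpa using hd.hasFDerivAt

variable {E F : Type*} [NormedAddCommGroup E] [NormedSpace ℝ E] [FiniteDimensional ℝ E]
  [NormedAddCommGroup F] [NormedSpace ℝ F] [FiniteDimensional ℝ F] [MeasurableSpace F]
  [BorelSpace F]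

/-- A locally Lipschitz map on an open set of `ℝⁿ` (values in `ℝⁿ`): almost every value is a
regular value, i.e. the map is differentiable with invertible derivative at all preimages. -/
theorem ae_regular_value (μ : Measure F) [μ.IsAddHaarMeasure]
    (h : finrank ℝ E = finrank ℝ F) {f : E → F} {s : Set E} (hs : IsOpen s) (hf : LocLip f s) :
    ∀ᵐ y ∂μ, ∀ x ∈ s, f x = y → ∃ f' : E ≃L[ℝ] F, HasFDerivAt f (f' : E →L[ℝ] F) x := by
  classical
  obtain ⟨e⟩ : Nonempty (F ≃L[ℝ] E) :=
    FiniteDimensional.nonempty_continuousLinearEquiv_of_finrank_eq h.symm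
  have hg : LocLip (fun z => f (e z)) (e ⁻¹' s) := by
    intro z hz
    obtain ⟨C, t, ht, hL⟩ := hf (e z) hz
    rw [hs.nhdsWithin_eq hz] at ht
    refine ⟨C * ‖(e : F →L[ℝ] E)‖₊, e ⁻¹' t, ?_, ?_⟩
    · exact mem_nhdsWithin_of_mem_nhds (e.continuous.continuousAt.preimage_mem_nhds ht)
    · exact hL.comp (e.lipschitz.lipschitzOnWith) (fun z hz => hz)
  filter_upwards [ae_regular_value_self μ (hs.preimage e.continuous) hg] with y hy x hx hxy
  obtain ⟨g', hg'⟩ := hy (e.symm x) (by simpa using hx) (by simpa using hxy)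
  refine ⟨e.symm.trans g', ?_⟩
  have h8 : HasFDerivAt (fun x => e.symm x) (e.symm : E →L[ℝ] F) x := e.symm.hasFDerivAt
  have h9 := hg'.comp x h8
  have h10 : ((fun z => f (e z)) ∘ fun x => e.symm x) = f := by
    funext z; simp
  rw [h10] at h9
  exact h9

end isolated

end Pool.Agent.Lib_helper32.Gen
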