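import Mathlib
import Pool.Agent.Lib_helper32.Gen.Null

/-! Sets of Lipschitz dimension at most `n`: covered by countably many locally Lipschitz images of
subsets of `ℝⁿ`. -/

open MeasureTheory Set Module Topology Filter
open scoped NNReal ENNReal

namespace Pool.Agent.Lib_helper32.Gen

theorem LocLip.mono {X Y : Type*} [PseudoEMetricSpace X] [PseudoEMetricSpace Y] {f : X → Y}
    {s t : Set X} (h : LocLip f s) (hts : t ⊆ s) : LocLip f t := by
  intro x hx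
  obtain ⟨C, u, hu, hL⟩ := h x (hts hx)
  exact ⟨C, u, nhdsWithin_mono x hts hu, hL⟩

theorem LocLip.continuousOn {X Y : Type*} [PseudoEMetricSpace X] [PseudoEMetricSpace Y] {f : X → Y}
    {s : Set X} (h : LocLip f s) : ContinuousOn f s := by
  intro x hx
  obtain ⟨C, u, hu, hL⟩ := h x hx
  have hxu : x ∈ u := mem_of_mem_nhdsWithin hx hu
  exact ((hL.continuousOn x hxu).mono_of_mem_nhdsWithin hu)

theorem LocLip.comp {X Y Z : Type*} [PseudoEMetricSpace X] [PseudoEMetricSpace Y]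
    [PseudoEMetricSpace Z] {g : Y → Z} {f : X → Y} {s : Set X} {t : Set Y}
    (hg : LocLip g t) (hf : LocLip f s) (hst : MapsTo f s t) : LocLip (g ∘ f) s := by
  intro x hx
  obtain ⟨C, u, hu, hL⟩ := hf x hx
  obtain ⟨C', u', hu', hL'⟩ := hg (f x) (hst hx)
  have h1 : f ⁻¹' u' ∈ 𝓝[s] x := by
    have := hf.continuousOn x hx
    exact (this.tendsto_nhdsWithin hst) hu'
  exact ⟨C' * C, u ∩ f ⁻¹' u', inter_mem hu h1,
    hL'.comp (hL.mono inter_subset_left) (fun z hz => hz.2)⟩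

theorem LocLip.prodMk {X Y Z : Type*} [PseudoEMetricSpace X] [PseudoEMetricSpace Y]
    [PseudoEMetricSpace Z] {f : X → Y} {g : X → Z} {s : Set X}
    (hf : LocLip f s) (hg : LocLip g s) : LocLip (fun x => (f x, g x)) s := by
  intro x hx
  obtain ⟨C, u, hu, hL⟩ := hf x hx
  obtain ⟨C', u', hu', hL'⟩ := hg x hx
  exact ⟨max C C', u ∩ u', inter_mem hu hu',
    (hL.mono inter_subset_left).prodMk (hL'.mono inter_subset_right)⟩

theorem LocLip.of_lipschitzOnWith {X Y : Type*} [PseudoEMetricSpace X] [PseudoEMetricSpace Y]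
    {f : X → Y} {s : Set X} {C : ℝ≥0} (h : LipschitzOnWith C f s) : LocLip f s :=
  fun _ _ => ⟨C, s, self_mem_nhdsWithin, h⟩

theorem LocLip.of_lipschitzWith {X Y : Type*} [PseudoEMetricSpace X] [PseudoEMetricSpace Y]
    {f : X → Y} {s : Set X} {C : ℝ≥0} (h : LipschitzWith C f) : LocLip f s :=
  LocLip.of_lipschitzOnWith h.lipschitzOnWith

theorem LocLip.of_contDiffAt {E F : Type*} [NormedAddCommGroup E] [NormedSpace ℝ E]
    [NormedAddCommGroup F] [NormedSpace ℝ F] {f : E → F} {s : Set E}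
    (h : ∀ x ∈ s, ContDiffAt ℝ 1 f x) : LocLip f s := by
  intro x hx
  obtain ⟨C, t, ht, hL⟩ := (h x hx).exists_lipschitzOnWith
  exact ⟨C, t, mem_nhdsWithin_of_mem_nhds ht, hL⟩

theorem LocLip.of_contDiff {E F : Type*} [NormedAddCommGroup E] [NormedSpace ℝ E]
    [NormedAddCommGroup F] [NormedSpace ℝ F] {f : E → F} {s : Set E}
    (h : ContDiff ℝ 1 f) : LocLip f s :=
  LocLip.of_contDiffAt fun _ _ => h.contDiffAt

/-- `S` is contained in a locally Lipschitz image of a subset of `ℝⁿ`. -/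
def Piece {X : Type*} [PseudoEMetricSpace X] (n : ℕ) (S : Set X) : Prop :=
  ∃ (s : Set (Fin n → ℝ)) (f : (Fin n → ℝ) → X), LocLip f s ∧ S ⊆ f '' s

/-- `S` is covered by countably many locally Lipschitz images of subsets of `ℝⁿ`. -/
def SmallDim {X : Type*} [PseudoEMetricSpace X] (n : ℕ) (S : Set X) : Prop :=
  ∃ 𝒮 : Set (Set X), 𝒮.Countable ∧ (∀ T ∈ 𝒮, Piece n T) ∧ S ⊆ ⋃₀ 𝒮

section

variable {X Y : Type*} [PseudoEMetricSpace X] [PseudoEMetricSpace Y]

theorem Piece.smallDim {n : ℕ} {S : Set X} (h : Piece n S) : SmallDim n S :=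
  ⟨{S}, countable_singleton S, by simpa using h, by simp⟩

theorem SmallDim.mono {n : ℕ} {S T : Set X} (h : SmallDim n T) (hST : S ⊆ T) : SmallDim n S := by
  obtain ⟨𝒮, h1, h2, h3⟩ := h
  exact ⟨𝒮, h1, h2, hST.trans h3⟩

theorem SmallDim.iUnion {n : ℕ} {ι : Type*} [Countable ι] {S : ι → Set X}
    (h : ∀ i, SmallDim n (S i)) : SmallDim n (⋃ i, S i) := by
  choose 𝒮 h1 h2 h3 using h
  refine ⟨⋃ i, 𝒮 i, countable_iUnion h1, ?_, ?_⟩
  · intro T hT
    obtain ⟨i, hi⟩ := mem_iUnion.1 hT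
    exact h2 i T hi
  · refine iUnion_subset fun i => (h3 i).trans ?_
    exact sUnion_subset_sUnion (subset_iUnion 𝒮 i)

theorem SmallDim.biUnion {n : ℕ} {ι : Type*} {T : Set ι} (hT : T.Countable) {S : ι → Set X}
    (h : ∀ i ∈ T, SmallDim n (S i)) : SmallDim n (⋃ i ∈ T, S i) := by
  have := hT.to_subtype
  rw [biUnion_eq_iUnion]
  exact SmallDim.iUnion fun i => h i i.2

theorem SmallDim.union {n : ℕ} {S T : Set X} (hS : SmallDim n S) (hT : SmallDim n T) :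
    SmallDim n (S ∪ T) := by
  rw [union_eq_iUnion]
  exact SmallDim.iUnion fun b => by cases b <;> assumption

/-- the basic way to produce pieces -/
theorem SmallDim.of_image {E : Type*} [NormedAddCommGroup E] [NormedSpace ℝ E]
    [FiniteDimensional ℝ E] {n : ℕ} (hn : finrank ℝ E ≤ n) {f : E → X} {s : Set E}
    (hf : LocLip f s) {S : Set X} (hS : S ⊆ f '' s) : SmallDim n S := by
  -- a linear surjection `ℝⁿ → E`
  obtain ⟨g, hg⟩ : ∃ g : (Fin n → ℝ) →ₗ[ℝ] E, Function.Surjective g := by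
    classical
    let b := finBasis ℝ E
    refine ⟨∑ i : Fin (finrank ℝ E), (LinearMap.proj (Fin.castLE hn i)).smulRight (b i), ?_⟩
    intro y
    refine ⟨fun j => if h : (j : ℕ) < finrank ℝ E then b.repr y ⟨j, h⟩ else 0, ?_⟩
    simp only [LinearMap.sum_apply, LinearMap.smulRight_apply, LinearMap.proj_apply,
      Fin.val_castLE, Fin.is_lt, dite_true, Fin.eta]
    exact b.sum_repr y
  refine Piece.smallDim ⟨g ⁻¹' s, f ∘ g, ?_, ?_⟩
  · have h1 : LocLip (fun x => g x) (g ⁻¹' s) :=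
      LocLip.of_lipschitzWith (LinearMap.toContinuousLinearMap g).lipschitz
    exact hf.comp h1 (fun x hx => hx)
  · rintro x hx
    obtain ⟨y, hy, rfl⟩ := hS hx
    obtain ⟨z, rfl⟩ := hg y
    exact ⟨z, hy, rfl⟩

theorem SmallDim.univ {E : Type*} [NormedAddCommGroup E] [NormedSpace ℝ E]
    [FiniteDimensional ℝ E] {n : ℕ} (hn : finrank ℝ E ≤ n) : SmallDim n (Set.univ : Set E) :=
  SmallDim.of_image hn (f := fun x => x) (s := Set.univ)
    (LocLip.of_lipschitzWith LipschitzWith.id) (by simp)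

theorem SmallDim.image {n : ℕ} {S : Set X} (hS : SmallDim n S) {f : X → Y} (hf : LocLip f S) :
    SmallDim n (f '' S) := by
  obtain ⟨𝒮, h1, h2, h3⟩ := hS
  have h4 : f '' S ⊆ ⋃ T ∈ 𝒮, f '' (S ∩ T) := by
    rintro _ ⟨x, hx, rfl⟩
    obtain ⟨T, hT, hxT⟩ := h3 hx
    exact mem_iUnion₂.2 ⟨T, hT, x, ⟨hx, hxT⟩, rfl⟩
  refine SmallDim.mono (SmallDim.biUnion h1 fun T hT => ?_) h4
  obtain ⟨s, g, hg, hTs⟩ := h2 T hT
  refine Piece.smallDim ⟨s ∩ g ⁻¹' S, f ∘ g, ?_, ?_⟩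
  · exact hf.comp (hg.mono inter_subset_left) (fun x hx => hx.2)
  · rintro _ ⟨x, ⟨hx, hxT⟩, rfl⟩
    obtain ⟨y, hy, rfl⟩ := hTs hxT
    exact ⟨y, ⟨hy, hx⟩, rfl⟩

theorem SmallDim.le {n m : ℕ} (hnm : n ≤ m) {S : Set X} (hS : SmallDim n S) : SmallDim m S := by
  obtain ⟨𝒮, h1, h2, h3⟩ := hS
  rw [sUnion_eq_biUnion] at h3
  refine SmallDim.mono (SmallDim.biUnion h1 fun T hT => ?_) h3
  obtain ⟨s, g, hg, hTs⟩ := h2 T hT
  exact SmallDim.of_image (E := Fin n → ℝ) (by simpa using hnm) hg hTs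

theorem SmallDim.prod {n m : ℕ} {S : Set X} {T : Set Y} (hS : SmallDim n S) (hT : SmallDim m T) :
    SmallDim (n + m) (S ×ˢ T) := by
  obtain ⟨𝒮, h1, h2, h3⟩ := hS
  obtain ⟨𝒯, k1, k2, k3⟩ := hT
  have h4 : S ×ˢ T ⊆ ⋃ P ∈ 𝒮 ×ˢ 𝒯, (P.1 ×ˢ P.2 : Set (X × Y)) := by
    rintro ⟨x, y⟩ ⟨hx, hy⟩
    obtain ⟨A, hA, hxA⟩ := h3 hx
    obtain ⟨B, hB, hyB⟩ := k3 hy
    exact mem_iUnion₂.2 ⟨(A, B), ⟨hA, hB⟩, hxA, hyB⟩
  refine SmallDim.mono (SmallDim.biUnion (h1.prod k1) fun P hP => ?_) h4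
  obtain ⟨s, g, hg, hTs⟩ := h2 P.1 hP.1
  obtain ⟨s', g', hg', hTs'⟩ := k2 P.2 hP.2
  refine SmallDim.of_image (E := (Fin n → ℝ) × (Fin m → ℝ)) (by simp)
    (f := fun x => (g x.1, g' x.2)) (s := s ×ˢ s') ?_ ?_
  · refine LocLip.prodMk (hg.comp (f := Prod.fst) (LocLip.of_lipschitzWith LipschitzWith.prod_fst) ?_)
      (hg'.comp (f := Prod.snd) (LocLip.of_lipschitzWith LipschitzWith.prod_snd) ?_)
    · exact fun x hx => hx.1
    · exact fun x hx => hx.2
  · rintro ⟨x, y⟩ ⟨hx, hy⟩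
    obtain ⟨a, ha, rfl⟩ := hTs hx
    obtain ⟨b, hb, rfl⟩ := hTs' hy
    exact ⟨(a, b), ⟨ha, hb⟩, rfl⟩

theorem SmallDim.of_countable {S : Set X} (hS : S.Countable) (n : ℕ) : SmallDim n S := by
  have h : S ⊆ ⋃ x ∈ S, {x} := by simp
  refine SmallDim.mono (SmallDim.biUnion hS fun x _ => ?_) h
  refine Piece.smallDim ⟨Set.univ, fun _ => x, LocLip.of_lipschitzWith (LipschitzWith.const x), ?_⟩
  rintro _ rfl
  exact ⟨0, trivial, rfl⟩

end

theorem SmallDim.null {F : Type*} [NormedAddCommGroup F] [NormedSpace ℝ F]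
    [FiniteDimensional ℝ F] [MeasurableSpace F] [BorelSpace F]
    (μ : Measure F) [μ.IsAddHaarMeasure] {n : ℕ} {S : Set F} (hS : SmallDim n S)
    (hn : n < finrank ℝ F) : μ S = 0 := by
  obtain ⟨𝒮, h1, h2, h3⟩ := hS
  rw [sUnion_eq_biUnion] at h3
  refine measure_mono_null h3 ((measure_biUnion_null_iff h1).2 fun T hT => ?_)
  obtain ⟨s, g, hg, hTs⟩ := h2 T hT
  refine measure_mono_null hTs (null_image_of_finrank_lt μ ?_ hg)
  simpa using hn

end Pool.Agent.Lib_helper32.Gen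

namespace Pool.Agent.Lib_helper32.Gen

/-- If the derivative is invertible at every point of the fibre, the fibre is countable. -/
theorem countable_fibre {E F : Type*} [NormedAddCommGroup E] [NormedSpace ℝ E]
    [FiniteDimensional ℝ E] [NormedAddCommGroup F] [NormedSpace ℝ F]
    {f : E → F} {s : Set E} {y : F}
    (h : ∀ x ∈ s, f x = y → ∃ f' : E ≃L[ℝ] F, HasFDerivAt f (f' : E →L[ℝ] F) x) :
    {x | x ∈ s ∧ f x = y}.Countable := by
  set S : Set E := {x | x ∈ s ∧ f x = y}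
  have h1 : ∀ x ∈ S, ({x} : Set E) ∈ 𝓝[S] x := by
    rintro x ⟨hx, hxy⟩
    obtain ⟨f', hf'⟩ := h x hx hxy
    have h2 : ∀ᶠ z in 𝓝[≠] x, f z ≠ y := by
      exact hf'.eventually_ne (c := y) ⟨_, f'.antilipschitz⟩
    rw [eventually_nhdsWithin_iff] at h2
    rw [mem_nhdsWithin_iff_eventually]
    filter_upwards [h2] with z hz hzS
    by_contra hne
    exact hz hne hzS.2
  obtain ⟨T, hTS, hTc, hT⟩ := TopologicalSpace.countable_cover_nhdsWithin h1
  refine hTc.mono fun x hx => ?_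
  obtain ⟨y, hy, hxy⟩ := mem_iUnion₂.1 (hT hx)
  rw [mem_singleton_iff] at hxy
  exact hxy ▸ hy

/-- a locally Lipschitz map of `ℝⁿ` has countable fibres over almost every value -/
theorem ae_countable_fibre {E F : Type*} [NormedAddCommGroup E] [NormedSpace ℝ E]
    [FiniteDimensional ℝ E] [NormedAddCommGroup F] [NormedSpace ℝ F] [FiniteDimensional ℝ F]
    [MeasurableSpace F] [BorelSpace F] (μ : Measure F) [μ.IsAddHaarMeasure]
    (h : finrank ℝ E = finrank ℝ F) {f : E → F} {s : Set E} (hs : IsOpen s) (hf : LocLip f s) :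
    ∀ᵐ y ∂μ, {x | x ∈ s ∧ f x = y}.Countable := by
  filter_upwards [ae_regular_value μ h hs hf] with y hy
  exact countable_fibre hy

end Pool.Agent.Lib_helper32.Gen
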