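import Mathlib
import Pool.Agent.Lib_helper32.Gen.SmallDim
import Pool.Agent.Lib_helper89.Flip.Defs

/-! Generic systems: for almost every system `Φ` the set `D2 Φ` is countable and the seven forms are
linearly independent.  Zero-free systems are open. -/

open MeasureTheory Set Module Topology Filter
open scoped NNReal ENNReal

namespace Pool.Agent.Lib_helper32.Gen

open Pool.Agent.Flip

/-- parameter space of systems of seven symmetric complex `5 × 5` matrices -/
abbrev Par := Fin 7 → Sym2 (Fin 5) → ℂ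

/-- the system of symmetric matrices with given entries -/
def mkSys (c : Par) : Sys := fun j => Matrix.of fun a b => c j s(a, b)

lemma mkSys_apply (c : Par) (j : Fin 7) (a b : Fin 5) : mkSys c j a b = c j s(a, b) := rfl

lemma mkSys_symm (c : Par) : Symm (mkSys c) := by
  intro j
  ext a b
  simp only [Matrix.transpose_apply, mkSys_apply, Sym2.eq_swap]

lemma exists_mkSys {Φ : Sys} (h : Symm Φ) : ∃ c, mkSys c = Φ := by
  refine ⟨fun j => Sym2.lift ⟨fun a b => Φ j a b, fun a b => ?_⟩, ?_⟩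
  · exact (h j).apply b a
  · funext j
    ext a b
    simp [mkSys_apply]

/-- coefficient matrix `(I | R)` with columns distributed by `e` -/
def CC (e : Fin 3 ⊕ Fin 2 ≃ Fin 5) (R : Fin 3 → Fin 2 → ℂ) (i : Fin 5) (k : Fin 3) : ℂ :=
  match e.symm i with
  | .inl l => if l = k then 1 else 0
  | .inr m => R k m

/-- the symmetric matrix `(I|R)ᵀ N (I|R)` of rank at most three -/
def MM (e : Fin 3 ⊕ Fin 2 ≃ Fin 5) (N : Sym2 (Fin 3) → ℂ) (R : Fin 3 → Fin 2 → ℂ) :
    Sym2 (Fin 5) → ℂ :=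
  Sym2.lift ⟨fun a b => ∑ k, ∑ l, CC e R a k * N s(k, l) * CC e R b l, fun a b => by
    beta_reduce
    rw [Finset.sum_comm]
    refine Finset.sum_congr rfl fun k _ => Finset.sum_congr rfl fun l _ => ?_
    rw [Sym2.eq_swap (a := k)]
    ring⟩

lemma MM_apply (e : Fin 3 ⊕ Fin 2 ≃ Fin 5) (N : Sym2 (Fin 3) → ℂ) (R : Fin 3 → Fin 2 → ℂ)
    (a b : Fin 5) : MM e N R s(a, b) = ∑ k, ∑ l, CC e R a k * N s(k, l) * CC e R b l := rfl

/-- linear algebra: a symmetric matrix of rank at most three has the form `MM` -/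
theorem exists_MM (M : Sym2 (Fin 5) → ℂ)
    (h : (Matrix.of fun a b : Fin 5 => M s(a, b)).rank ≤ 3) :
    ∃ e N R, M = MM e N R := by
  classical
  set A : Matrix (Fin 5) (Fin 5) ℂ := Matrix.of fun a b : Fin 5 => M s(a, b) with hA
  rw [Matrix.rank_eq_finrank_span_row] at h
  obtain ⟨f, hf1, hf2, -⟩ := Submodule.exists_fun_fin_finrank_span_eq ℂ (range A.row)
  choose g hg using hf1
  -- the set of rows
  set T : Finset (Fin 5) := Finset.univ.image g with hT
  have hTc : T.card ≤ 3 := by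
    calc T.card ≤ Finset.univ.card := Finset.card_image_le
      _ = finrank ℂ (Submodule.span ℂ (range A.row)) := by simp
      _ ≤ 3 := h
  obtain ⟨s, hTs, hs⟩ : ∃ s, T ⊆ s ∧ s.card = 3 :=
    Finset.exists_superset_card_eq hTc (by simp)
  -- the equivalence
  have e1 : Fin 3 ≃ {i // i ∈ s} := (Fintype.equivFinOfCardEq (by simp [hs])).symm
  have e2 : Fin 2 ≃ {i // i ∉ s} := (Fintype.equivFinOfCardEq (by
    rw [Fintype.card_subtype_compl]
    simp [hs])).symm
  set e : Fin 3 ⊕ Fin 2 ≃ Fin 5 := (Equiv.sumCongr e1 e2).trans (Equiv.sumCompl (· ∈ s)) with he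
  have hin : ∀ i ∈ s, ∃ k, e (Sum.inl k) = i := by
    intro i hi
    refine ⟨e1.symm ⟨i, hi⟩, ?_⟩
    simp [he]
  have hspan : ∀ i, A.row i ∈ Submodule.span ℂ (range fun k : Fin 3 => A.row (e (Sum.inl k))) := by
    intro i
    have h1 : A.row i ∈ Submodule.span ℂ (range A.row) := Submodule.subset_span ⟨i, rfl⟩
    rw [← hf2] at h1
    refine Submodule.span_mono ?_ h1
    rintro _ ⟨j, rfl⟩
    have h2 : g j ∈ s := hTs (Finset.mem_image_of_mem g (Finset.mem_univ j))
    obtain ⟨k, hk⟩ := hin _ h2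
    exact ⟨k, by simp only [hk]; exact hg j⟩
  choose c hc using fun i => (Submodule.mem_span_range_iff_exists_fun ℂ).1 (hspan i)
  set R : Fin 3 → Fin 2 → ℂ := fun k m => c (e (Sum.inr m)) k with hR
  have hrow : ∀ i b, A i b = ∑ k, CC e R i k * A (e (Sum.inl k)) b := by
    intro i b
    obtain ⟨x, rfl⟩ := e.surjective i
    rcases x with l | m
    · simp [CC]
    · have h3 := congrFun (hc (e (Sum.inr m))) b
      simp only [Finset.sum_apply, Pi.smul_apply, smul_eq_mul, Matrix.row_apply] at h3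
      rw [← h3]
      simp [CC, hR]
  have hsymm : ∀ a b, A a b = A b a := by
    intro a b
    simp only [hA, Matrix.of_apply, Sym2.eq_swap]
  refine ⟨e, fun p => M (Sym2.map (fun k => e (Sum.inl k)) p), R, ?_⟩
  funext p
  induction p using Sym2.ind with
  | _ a b =>
    rw [MM_apply]
    have h4 : M s(a, b) = A a b := rfl
    rw [h4, hrow a b]
    refine Finset.sum_congr rfl fun k _ => ?_
    rw [hsymm, hrow b, Finset.mul_sum]
    refine Finset.sum_congr rfl fun l _ => ?_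
    simp only [Sym2.map_mk]
    have h5 : M s(e (Sum.inl k), e (Sum.inl l)) = A (e (Sum.inl l)) (e (Sum.inl k)) := by
      rw [hsymm]; rfl
    rw [h5]
    ring

/-- source of the parametrisation of the pairs (system, point of corank at least two) -/
abbrev Src := (Fin 6 → ℝ) × (Fin 6 → Sym2 (Fin 5) → ℂ) × (Sym2 (Fin 3) → ℂ) × (Fin 3 → Fin 2 → ℂ)

/-- the parametrisation, `φ_w = M` solved for the `j₀`-th matrix -/
noncomputable def Psi (j₀ : Fin 7) (e : Fin 3 ⊕ Fin 2 ≃ Fin 5) (x : Src) : Par :=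
  j₀.insertNth (α := fun _ => Sym2 (Fin 5) → ℂ)
    (MM e x.2.2.1 x.2.2.2 - ∑ j, ((x.1 j : ℝ) : ℂ) • x.2.1 j) x.2.1

lemma contDiff_CC (e : Fin 3 ⊕ Fin 2 ≃ Fin 5) (i : Fin 5) (k : Fin 3) :
    ContDiff ℝ 1 (fun x : Src => CC e x.2.2.2 i k) := by
  unfold CC
  rcases e.symm i with l | m
  · exact contDiff_const
  · simp only
    fun_prop

lemma contDiff_MM (e : Fin 3 ⊕ Fin 2 ≃ Fin 5) (p : Sym2 (Fin 5)) :
    ContDiff ℝ 1 (fun x : Src => MM e x.2.2.1 x.2.2.2 p) := by
  induction p using Sym2.ind with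
  | _ a b =>
    simp only [MM_apply]
    refine ContDiff.sum fun k _ => ContDiff.sum fun l _ => ?_
    refine ((contDiff_CC e a k).mul ?_).mul (contDiff_CC e b l)
    fun_prop

lemma contDiff_Psi (j₀ : Fin 7) (e : Fin 3 ⊕ Fin 2 ≃ Fin 5) : ContDiff ℝ 1 (Psi j₀ e) := by
  rw [contDiff_pi]
  intro j
  rw [contDiff_pi]
  intro p
  refine Fin.succAboveCases j₀ (α := fun j => ContDiff ℝ 1 fun x => Psi j₀ e x j p) ?_ ?_ j
  · have h : (fun x => Psi j₀ e x j₀ p) = fun x : Src =>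
        MM e x.2.2.1 x.2.2.2 p - ∑ j, ((x.1 j : ℝ) : ℂ) * x.2.1 j p := by
      funext x
      simp [Psi]
    rw [h]
    refine (contDiff_MM e p).sub (ContDiff.sum fun k _ => ContDiff.mul ?_ ?_)
    · exact Complex.ofRealCLM.contDiff.comp (by fun_prop)
    · fun_prop
  · intro k
    have h : (fun x => Psi j₀ e x (j₀.succAbove k) p) = fun x : Src => x.2.1 k p := by
      funext x
      simp [Psi]
    rw [h]
    fun_prop

lemma card_sym2_three : Fintype.card (Sym2 (Fin 3)) = 6 := by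
  rw [Sym2.card]; rfl

lemma card_sym2_five : Fintype.card (Sym2 (Fin 5)) = 15 := by
  rw [Sym2.card]; rfl

lemma finrank_Par : finrank ℝ Par = 210 := by
  simp only [Par, Module.finrank_pi_fintype, Complex.finrank_real_complex, Finset.sum_const,
    Finset.card_univ, card_sym2_five, Fintype.card_fin]
  norm_num

lemma finrank_Src : finrank ℝ Src = 210 := by
  simp only [Src, Module.finrank_prod, Module.finrank_pi_fintype, Complex.finrank_real_complex,
    Finset.sum_const, Finset.card_univ, card_sym2_five, card_sym2_three, Fintype.card_fin,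
    Module.finrank_self]
  norm_num

lemma A_eq_zero_iff (Φ : Sys) (w : W) (z : V) :
    A Φ w z = 0 ↔ (phi Φ w).mulVec (WithLp.ofLp z) = 0 := by
  constructor
  · intro h
    funext i
    have h1 := congrArg (fun x : V => x i) h
    simp only [A_apply] at h1
    simpa using h1
  · intro h
    ext i
    rw [A_apply, h]
    simp

lemma finrank_ker_A (Φ : Sys) (w : W) :
    finrank ℝ (LinearMap.ker (A Φ w).toLinearMap) =
      2 * finrank ℂ (LinearMap.ker (phi Φ w).mulVecLin) := by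
  rw [← finrank_real_of_complex]
  let e : V ≃ₗ[ℝ] (Fin 5 → ℂ) := WithLp.linearEquiv 2 ℝ (Fin 5 → ℂ)
  have h : (LinearMap.ker (A Φ w).toLinearMap).map (e : V →ₗ[ℝ] (Fin 5 → ℂ)) =
      (LinearMap.ker (phi Φ w).mulVecLin).restrictScalars ℝ := by
    ext z
    constructor
    · rintro ⟨y, hy, rfl⟩
      exact (A_eq_zero_iff Φ w y).1 hy
    · intro hz
      refine ⟨WithLp.toLp 2 z, ?_, rfl⟩
      exact (A_eq_zero_iff Φ w _).2 hz
  rw [(e.submoduleMap (LinearMap.ker (A Φ w).toLinearMap)).finrank_eq, h]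
  rfl

lemma rank_le_of_D2 {Φ : Sys} {w : W}
    (h : 2 < finrank ℝ (LinearMap.ker (A Φ w).toLinearMap)) : (phi Φ w).rank ≤ 3 := by
  rw [finrank_ker_A] at h
  have h1 := (phi Φ w).mulVecLin.finrank_range_add_finrank_ker
  change (phi Φ w).rank + _ = _ at h1
  rw [Module.finrank_fintype_fun_eq_card, Fintype.card_fin] at h1
  omega

lemma phi_mkSys (c : Par) (w : W) :
    phi (mkSys c) w = Matrix.of fun a b => (∑ j, ((w j : ℝ) : ℂ) • c j) s(a, b) := by
  ext a b
  simp [phi, mkSys_apply, Matrix.sum_apply]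

/-- the vector of ratios `w_j / w_{j₀}`, `j ≠ j₀` -/
noncomputable def ratio (j₀ : Fin 7) (w : W) : Fin 6 → ℝ := fun k => w (j₀.succAbove k) / w j₀

lemma eq_Psi (c : Par) (w : W) (j₀ : Fin 7) (hj : w j₀ ≠ 0) (e : Fin 3 ⊕ Fin 2 ≃ Fin 5)
    (N : Sym2 (Fin 3) → ℂ) (R : Fin 3 → Fin 2 → ℂ)
    (h : (fun p => (∑ j, ((w j : ℝ) : ℂ) • c j) p / ((w j₀ : ℝ) : ℂ)) = MM e N R) :
    Psi j₀ e (ratio j₀ w, fun k => c (j₀.succAbove k), N, R) = c := by
  have hj' : ((w j₀ : ℝ) : ℂ) ≠ 0 := by exact_mod_cast hj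
  unfold Psi
  rw [Fin.insertNth_eq_iff]
  refine ⟨?_, rfl⟩
  funext p
  rw [← h]
  simp only [Pi.sub_apply, Finset.sum_apply, Pi.smul_apply, smul_eq_mul]
  rw [Fin.sum_univ_succAbove _ j₀, add_div, mul_div_cancel_left₀ _ hj', Finset.sum_div]
  have h2 : ∀ k : Fin 6, ((w (j₀.succAbove k) : ℝ) : ℂ) * c (j₀.succAbove k) p / ((w j₀ : ℝ) : ℂ) =
      ((ratio j₀ w k : ℝ) : ℂ) * c (j₀.succAbove k) p := by
    intro k
    simp only [ratio, Complex.ofReal_div]
    ring
  simp only [h2]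
  ring

theorem exists_Psi_of_D2 (c : Par) {w : W} (hw : w ∈ D2 (mkSys c)) :
    ∃ j₀ e N R, w j₀ ≠ 0 ∧ Psi j₀ e (ratio j₀ w, fun k => c (j₀.succAbove k), N, R) = c := by
  obtain ⟨h1, h2⟩ := hw
  have h3 := rank_le_of_D2 h2
  obtain ⟨j₀, hj⟩ : ∃ j, w j ≠ 0 := by
    by_contra hcon
    push Not at hcon
    have : w = 0 := by ext j; simpa using hcon j
    rw [this] at h1
    simp at h1
  have hj' : ((w j₀ : ℝ) : ℂ) ≠ 0 := by exact_mod_cast hj
  obtain ⟨e, N, R, h4⟩ := exists_MM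
    (fun p => (∑ j, ((w j : ℝ) : ℂ) • c j) p / ((w j₀ : ℝ) : ℂ)) (by
      rw [phi_mkSys] at h3
      have h5 : (Matrix.of fun a b : Fin 5 =>
          (∑ j, ((w j : ℝ) : ℂ) • c j) s(a, b) / ((w j₀ : ℝ) : ℂ)) =
          (((w j₀ : ℝ) : ℂ))⁻¹ • (Matrix.of fun a b : Fin 5 =>
          (∑ j, ((w j : ℝ) : ℂ) • c j) s(a, b)) := by
        ext a b
        simp only [Matrix.of_apply, Matrix.smul_apply, smul_eq_mul]
        ring
      rw [h5]
      have h6 : ((((w j₀ : ℝ) : ℂ))⁻¹ • (Matrix.of fun a b : Fin 5 =>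
          (∑ j, ((w j : ℝ) : ℂ) • c j) s(a, b))).rank ≤ (Matrix.of fun a b : Fin 5 =>
          (∑ j, ((w j : ℝ) : ℂ) • c j) s(a, b)).rank := by
        have := Matrix.rank_mul_le_right ((((w j₀ : ℝ) : ℂ))⁻¹ • (1 : Matrix (Fin 5) (Fin 5) ℂ))
          (Matrix.of fun a b : Fin 5 => (∑ j, ((w j : ℝ) : ℂ) • c j) s(a, b))
        simpa using this
      exact h6.trans h3)
  exact ⟨j₀, e, N, R, hj, eq_Psi c w j₀ hj e N R h4⟩

/-- a vector of norm one is determined, up to finitely many possibilities, by its ratios -/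
lemma finite_of_ratio (j₀ : Fin 7) (r : Fin 6 → ℝ) :
    {w : W | ‖w‖ = 1 ∧ w j₀ ≠ 0 ∧ ratio j₀ w = r}.Finite := by
  set w₀ : W := WithLp.toLp 2 (j₀.insertNth (α := fun _ => ℝ) 1 r) with hw₀
  have h1 : ∀ w : W, w j₀ ≠ 0 → ratio j₀ w = r → w = w j₀ • w₀ := by
    intro w hw hr
    ext j
    refine Fin.succAboveCases j₀ (α := fun j => w j = (w j₀ • w₀) j) ?_ ?_ j
    · simp [hw₀]
    · intro k
      have h2 := congrFun hr k
      simp only [ratio] at h2
      have : w (j₀.succAbove k) = w j₀ * r k := by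
        rw [← h2]; field_simp
      simp [hw₀, this]
  have h3 : {w : W | ‖w‖ = 1 ∧ w j₀ ≠ 0 ∧ ratio j₀ w = r} ⊆
      {‖w₀‖⁻¹ • w₀, (-‖w₀‖⁻¹) • w₀} := by
    rintro w ⟨hw1, hw2, hw3⟩
    have h4 := h1 w hw2 hw3
    have h5 : |w j₀| * ‖w₀‖ = 1 := by
      rw [← hw1]
      conv_rhs => rw [h4]
      rw [norm_smul, Real.norm_eq_abs]
    have h6 : ‖w₀‖ ≠ 0 := by
      intro h; rw [h, mul_zero] at h5; exact zero_ne_one h5
    have h7 : |w j₀| = ‖w₀‖⁻¹ := by
      field_simp; exact h5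
    rcases abs_choice (w j₀) with h8 | h8
    · left
      rw [← h7, h8]; exact h4
    · right
      rw [mem_singleton_iff, ← h7, h8, neg_neg]; exact h4
  exact Set.Finite.subset (by simp) h3

/-- **(Q)**, first half: for almost every system the points of corank at least two are countable -/
theorem ae_D2_countable [MeasurableSpace Par] [BorelSpace Par] (μ : Measure Par)
    [μ.IsAddHaarMeasure] : ∀ᵐ c ∂μ, (D2 (mkSys c)).Countable := by
  have h1 : ∀ᵐ c ∂μ, ∀ j₀ : Fin 7, ∀ e : Fin 3 ⊕ Fin 2 ≃ Fin 5,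
      {x | x ∈ (Set.univ : Set Src) ∧ Psi j₀ e x = c}.Countable := by
    rw [ae_all_iff]
    intro j₀
    rw [ae_all_iff]
    intro e
    exact ae_countable_fibre μ (by rw [finrank_Par, finrank_Src]) isOpen_univ
      (LocLip.of_contDiff (contDiff_Psi j₀ e))
  filter_upwards [h1] with c hc
  have h2 : D2 (mkSys c) ⊆ ⋃ j₀ : Fin 7, ⋃ e : Fin 3 ⊕ Fin 2 ≃ Fin 5,
      ⋃ x ∈ {x | x ∈ (Set.univ : Set Src) ∧ Psi j₀ e x = c},
        {w : W | ‖w‖ = 1 ∧ w j₀ ≠ 0 ∧ ratio j₀ w = x.1} := by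
    intro w hw
    obtain ⟨j₀, e, N, R, hj, h3⟩ := exists_Psi_of_D2 c hw
    refine mem_iUnion.2 ⟨j₀, mem_iUnion.2 ⟨e, mem_iUnion₂.2 ⟨_, ⟨trivial, h3⟩, hw.1, hj, rfl⟩⟩⟩
  refine Set.Countable.mono h2 (countable_iUnion fun j₀ => countable_iUnion fun e => ?_)
  exact (hc j₀ e).biUnion fun x _ => (finite_of_ratio j₀ x.1).countable

/-- **(Q)**, second half: for almost every system no `φ_w`, `w ≠ 0`, vanishes -/
theorem ae_phi_ne_zero [MeasurableSpace Par] [BorelSpace Par] (μ : Measure Par)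
    [μ.IsAddHaarMeasure] : ∀ᵐ c ∂μ, ∀ w : W, w ≠ 0 → phi (mkSys c) w ≠ 0 := by
  have h1 : ∀ j₀ : Fin 7, μ ((fun x : (Fin 6 → ℝ) × (Fin 6 → Sym2 (Fin 5) → ℂ) =>
      Psi j₀ (finSumFinEquiv (m := 3) (n := 2)) (x.1, x.2, 0, 0)) '' Set.univ) = 0 := by
    intro j₀
    refine null_image_of_finrank_lt μ ?_ (LocLip.of_contDiff ?_)
    · rw [finrank_Par]
      simp only [Module.finrank_prod, Module.finrank_pi_fintype, Complex.finrank_real_complex,
        Finset.sum_const, Finset.card_univ, card_sym2_five, Fintype.card_fin,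
        Module.finrank_self]
      norm_num
    · exact (contDiff_Psi _ _).comp (by fun_prop)
  have h2 : ∀ᵐ c ∂μ, ∀ j₀ : Fin 7, c ∉ ((fun x : (Fin 6 → ℝ) × (Fin 6 → Sym2 (Fin 5) → ℂ) =>
      Psi j₀ (finSumFinEquiv (m := 3) (n := 2)) (x.1, x.2, 0, 0)) '' Set.univ) := by
    rw [ae_all_iff]
    exact fun j₀ => measure_eq_zero_iff_ae_notMem.1 (h1 j₀)
  filter_upwards [h2] with c hc w hw hphi
  obtain ⟨j₀, hj⟩ : ∃ j, w j ≠ 0 := by
    by_contra hcon
    push Not at hcon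
    exact hw (by ext j; simpa using hcon j)
  refine hc j₀ ⟨(ratio j₀ w, fun k => c (j₀.succAbove k)), trivial, ?_⟩
  refine eq_Psi c w j₀ hj _ 0 0 ?_
  funext p
  induction p using Sym2.ind with
  | _ a b =>
    have h3 := congrFun (congrFun hphi a) b
    rw [phi_mkSys] at h3
    rw [MM_apply]
    simp only [Matrix.of_apply, Matrix.zero_apply] at h3
    rw [h3]
    simp

lemma q_apply (Φ : Sys) (z : V) (j : Fin 7) :
    q Φ z j = (dotProduct (WithLp.ofLp z) ((Φ j).mulVec (WithLp.ofLp z))).re := rfl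

lemma q_smul (Φ : Sys) (t : ℝ) (z : V) : q Φ (t • z) = (t * t) • q Φ z := by
  unfold q
  rw [map_smul, map_smul, LinearMap.smul_apply, smul_smul]

lemma continuous_q_mkSys : Continuous (fun x : Par × V => q (mkSys x.1) x.2) := by
  have h : ∀ j : Fin 7, Continuous (fun x : Par × V => q (mkSys x.1) x.2 j) := by
    intro j
    simp only [q_apply, dotProduct, Matrix.mulVec, mkSys_apply]
    fun_prop
  have h2 : Continuous (fun x : Par × V => (WithLp.ofLp (q (mkSys x.1) x.2) : Fin 7 → ℝ)) :=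
    continuous_pi h
  have h3 := (PiLp.continuous_toLp 2 (fun _ : Fin 7 => ℝ)).comp h2
  exact h3

lemma zeroFree_iff (Φ : Sys) :
    ZeroFree Φ ↔ ∀ z ∈ Metric.sphere (0 : V) 1, q Φ z ≠ 0 := by
  constructor
  · intro h z hz hq
    have := h z hq
    rw [this] at hz
    simp at hz
  · intro h z hz
    by_contra hne
    have h1 : ‖z‖ ≠ 0 := norm_ne_zero_iff.2 hne
    refine h (‖z‖⁻¹ • z) ?_ ?_
    · rw [mem_sphere_zero_iff_norm, norm_smul, norm_inv, norm_norm]
      exact inv_mul_cancel₀ h1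
    · rw [q_smul, hz, smul_zero]

lemma isOpen_zeroFree : IsOpen {c : Par | ZeroFree (mkSys c)} := by
  let S := Metric.sphere (0 : V) 1
  have hc : Continuous (fun x : Par × S => (x.1, (x.2 : V))) :=
    continuous_fst.prodMk (continuous_subtype_val.comp continuous_snd)
  have h2 := continuous_q_mkSys.comp hc
  have h0 : IsClosed {x : Par × S | q (mkSys x.1) (x.2 : V) = 0} :=
    isClosed_singleton.preimage h2
  have h1 := (isClosedMap_fst_of_compactSpace (X := Par) (Y := S)) _ h0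
  have h3 : {c : Par | ZeroFree (mkSys c)}ᶜ =
      (Prod.fst : Par × S → Par) '' {x : Par × S | q (mkSys x.1) (x.2 : V) = 0} := by
    ext c
    constructor
    · intro hz
      by_contra hcon
      refine hz ((zeroFree_iff _).2 fun z hz' hq => hcon ⟨(c, ⟨z, hz'⟩), hq, rfl⟩)
    · rintro ⟨⟨c', z⟩, hq, rfl⟩ hz
      exact (zeroFree_iff _).1 hz z z.2 hq
  rw [← isClosed_compl_iff, h3]
  exact h1

/-- **(Q)**: if there is a zero-free system then there is one with countably many points of corank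
at least two and linearly independent forms. -/
theorem exists_generic_system {Φ₀ : Sys} (hs : Symm Φ₀) (h0 : ZeroFree Φ₀) :
    ∃ Φ : Sys, Symm Φ ∧ ZeroFree Φ ∧ (D2 Φ).Countable ∧ ∀ w : W, w ≠ 0 → phi Φ w ≠ 0 := by
  borelize Par
  obtain ⟨c₀, rfl⟩ := exists_mkSys hs
  have h1 := ae_D2_countable (μH[finrank ℝ Par] : Measure Par)
  have h2 := ae_phi_ne_zero (μH[finrank ℝ Par] : Measure Par)
  obtain ⟨c, hc, hc1, hc2⟩ : ∃ c ∈ {c : Par | ZeroFree (mkSys c)},
      (D2 (mkSys c)).Countable ∧ ∀ w : W, w ≠ 0 → phi (mkSys c) w ≠ 0 := by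
    have h3 : Dense {c : Par | (D2 (mkSys c)).Countable ∧
        ∀ w : W, w ≠ 0 → phi (mkSys c) w ≠ 0} :=
      Measure.dense_of_ae (μ := (μH[finrank ℝ Par] : Measure Par)) (h1.and h2)
    obtain ⟨c, hc, hc'⟩ := h3.inter_open_nonempty _ isOpen_zeroFree ⟨c₀, h0⟩
    exact ⟨c, hc, hc'⟩
  exact ⟨mkSys c, mkSys_symm c, hc, hc1, hc2⟩

end Pool.Agent.Lib_helper32.Gen
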