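import Pool.Agent.Lib_helper32.Gen.Chart
import Pool.Agent.Lib_helper32.Gen.Rank

/-! Consequences of the charts: dimension of `D`, null sets. -/

set_option autoImplicit false

namespace Pool.Agent.Lib_helper32.Gen

open scoped InnerProductSpace NNReal ENNReal
open Complex Set Metric Filter Topology Module MeasureTheory Pool.Agent.Flip

noncomputable section

/-- Lindelöf principle for families indexed by a subset of `W` -/
theorem smallDim_of_local {X : Type*} [PseudoEMetricSpace X] {n : ℕ} {T : Set W} {S : W → Set X}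
    (h : ∀ w₀ ∈ T, ∃ U : Set W, IsOpen U ∧ w₀ ∈ U ∧ SmallDim n (⋃ w ∈ U ∩ T, S w)) :
    SmallDim n (⋃ w ∈ T, S w) := by
  choose! U hU hwU hS using h
  obtain ⟨C, hCT, hCc, hC⟩ := TopologicalSpace.countable_cover_nhdsWithin
    (f := U) (s := T) (fun w hw => mem_nhdsWithin_of_mem_nhds ((hU w hw).mem_nhds (hwU w hw)))
  have h1 : (⋃ w ∈ T, S w) ⊆ ⋃ w₀ ∈ C, ⋃ w ∈ U w₀ ∩ T, S w := by
    intro x hx
    obtain ⟨w, hw, hxw⟩ := mem_iUnion₂.1 hx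
    obtain ⟨w₀, hw₀, hw'⟩ := mem_iUnion₂.1 (hC hw)
    exact mem_iUnion₂.2 ⟨w₀, hw₀, mem_iUnion₂.2 ⟨w, ⟨hw', hw⟩, hxw⟩⟩
  exact (SmallDim.biUnion hCc fun w₀ hw₀ => hS w₀ (hCT hw₀)).mono h1

theorem smallDim_D1 {Φ : Sys} (hS : Symm Φ) (hZ : ZeroFree Φ) : SmallDim 4 (D1 Φ) := by
  have h : D1 Φ = ⋃ w ∈ D1 Φ, {w} := by simp
  rw [h]
  refine smallDim_of_local fun w₀ hw₀ => ?_
  obtain ⟨U, O, p, k, ψ, C, hU, hwU, hO, hp, hk, hψ, hall⟩ := D1_chart hS hZ hw₀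
  refine ⟨U, hU, hwU, SmallDim.of_image (E := Fin 4 → ℝ) (by simp) (LocLip.of_lipschitzOnWith hp) ?_⟩
  intro x hx
  obtain ⟨w, hw, rfl⟩ := mem_iUnion₂.1 hx
  exact ⟨ψ x, (hall x hw).1, (hall x hw).2.1⟩

theorem D_subset (Φ : Sys) : D Φ ⊆ D1 Φ ∪ D2 Φ := by
  rintro w ⟨h1, z, hz0, hz⟩
  have h2 : finrank ℝ (LinearMap.ker (A Φ w).toLinearMap) ≠ 0 := by
    intro h
    rw [Submodule.finrank_eq_zero] at h
    have : z ∈ LinearMap.ker (A Φ w).toLinearMap := hz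
    rw [h] at this
    exact hz0 this
  have h3 := finrank_ker_A Φ w
  rcases Nat.lt_or_ge 2 (finrank ℝ (LinearMap.ker (A Φ w).toLinearMap)) with h4 | h4
  · exact Or.inr ⟨h1, h4⟩
  · exact Or.inl ⟨h1, by omega⟩

theorem D1_subset (Φ : Sys) : D1 Φ ⊆ D Φ := by
  intro w hw
  obtain ⟨k, hk⟩ := exists_unitKer hw
  refine ⟨hw.1, k, ?_, hk.ker_eq⟩
  intro h
  have := hk.norm_eq
  rw [h, norm_zero] at this
  exact zero_ne_one this

theorem smallDim_D {Φ : Sys} (hS : Symm Φ) (hZ : ZeroFree Φ) (h2 : (D2 Φ).Countable) :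
    SmallDim 4 (D Φ) :=
  ((smallDim_D1 hS hZ).union (SmallDim.of_countable h2 4)).mono (D_subset Φ)

/-- `w ↦ A_+(w)` is Lipschitz -/
theorem lipschitz_Ap {Φ : Sys} (hS : Symm Φ) : ∃ C : ℝ≥0, LipschitzWith C (Ap Φ) := by
  refine ⟨Real.toNNReal (Real.sqrt 10 * ‖ALc Φ‖), LipschitzWith.of_dist_le_mul fun w w' => ?_⟩
  rw [dist_eq_norm, dist_eq_norm, Real.coe_toNNReal _ (by positivity)]
  calc ‖Ap Φ w - Ap Φ w'‖ ≤ Real.sqrt 10 * ‖A Φ w - A Φ w'‖ := Ap_sub_le hS w w'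
    _ ≤ Real.sqrt 10 * (‖ALc Φ‖ * ‖w - w'‖) := by
      gcongr; exact norm_A_sub_le Φ w w'
    _ = _ := by ring

theorem locLip_Ap {Φ : Sys} (hS : Symm Φ) (s : Set W) : LocLip (Ap Φ) s := by
  obtain ⟨C, hC⟩ := lipschitz_Ap hS
  exact LocLip.of_lipschitzWith hC

/-- the bilinear map `B` as a continuous bilinear map -/
def Bc (Φ : Sys) : V →L[ℝ] V →L[ℝ] W :=
  LinearMap.toContinuousLinearMap
    (((LinearMap.toContinuousLinearMap : (V →ₗ[ℝ] W) ≃ₗ[ℝ] (V →L[ℝ] W)) :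
      (V →ₗ[ℝ] W) →ₗ[ℝ] (V →L[ℝ] W)) ∘ₗ (B Φ))

@[simp] lemma Bc_apply (Φ : Sys) (x y : V) : Bc Φ x y = B Φ x y := rfl

theorem contDiff_q (Φ : Sys) : ContDiff ℝ 1 (q Φ) := by
  have h : ContDiff ℝ 1 (fun z => Bc Φ z z) := (Bc Φ).contDiff.clm_apply contDiff_id
  exact h

/-- auxiliary function for `(G1)` -/
def G1fun (Φ : Sys) (v : V) (y : (V →L[ℝ] V) × (W × ℝ × ℝ)) : W :=
  q Φ (y.2.2.1 • J1 (y.1 v)) - y.2.2.2 • y.2.1

lemma contDiff_G1fun (Φ : Sys) (v : V) : ContDiff ℝ 1 (G1fun Φ v) := by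
  have a1 : ContDiff ℝ 1 (fun y : (V →L[ℝ] V) × (W × ℝ × ℝ) => y.1 v) :=
    contDiff_fst.clm_apply contDiff_const
  have a2 : ContDiff ℝ 1 (fun y : (V →L[ℝ] V) × (W × ℝ × ℝ) => J1 (y.1 v)) :=
    J1.contDiff.comp a1
  have a3 : ContDiff ℝ 1 (fun y : (V →L[ℝ] V) × (W × ℝ × ℝ) => y.2.2.1) := by fun_prop
  have a4 : ContDiff ℝ 1 (fun y : (V →L[ℝ] V) × (W × ℝ × ℝ) => y.2.2.1 • J1 (y.1 v)) := a3.smul a2
  have a5 : ContDiff ℝ 1 (fun y : (V →L[ℝ] V) × (W × ℝ × ℝ) => y.2.2.2 • y.2.1) := by fun_prop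
  have a6 : ContDiff ℝ 1 (fun y : (V →L[ℝ] V) × (W × ℝ × ℝ) => q Φ (y.2.2.1 • J1 (y.1 v))) :=
    (contDiff_q Φ).comp a4
  exact a6.sub a5

/-- the set of `(G1)` is null -/
theorem null_G1 {Φ : Sys} (hS : Symm Φ) (hZ : ZeroFree Φ) (h2 : (D2 Φ).Countable) (v : V) :
    volume {u : W | ∃ w ∈ D Φ, ∃ t c : ℝ, q Φ (t • J1 (Ap Φ w v)) - c • w = u} = 0 := by
  have h3 : SmallDim (4 + (1 + 1)) (D Φ ×ˢ ((Set.univ : Set ℝ) ×ˢ (Set.univ : Set ℝ))) :=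
    (smallDim_D hS hZ h2).prod
      ((SmallDim.univ (by simp)).prod (SmallDim.univ (by simp)))
  have h5 : LocLip (fun x : W × ℝ × ℝ => (Ap Φ x.1, x))
      (D Φ ×ˢ ((Set.univ : Set ℝ) ×ˢ (Set.univ : Set ℝ))) :=
    LocLip.prodMk ((locLip_Ap hS Set.univ).comp
      (LocLip.of_lipschitzWith LipschitzWith.prod_fst) (fun _ _ => trivial))
      (LocLip.of_lipschitzWith LipschitzWith.id)
  have h6 : LocLip (G1fun Φ v) Set.univ := LocLip.of_contDiff (contDiff_G1fun Φ v)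
  have h4 : LocLip (G1fun Φ v ∘ (fun x : W × ℝ × ℝ => (Ap Φ x.1, x)))
      (D Φ ×ˢ ((Set.univ : Set ℝ) ×ˢ (Set.univ : Set ℝ))) := h6.comp h5 (fun _ _ => trivial)
  have h7 := (h3.image h4).null (volume : Measure W) (by rw [finrank_W]; norm_num)
  refine measure_mono_null ?_ h7
  rintro u ⟨w, hw, t, c, hu⟩
  exact ⟨(w, t, c), ⟨hw, trivial, trivial⟩, hu⟩

/-- multiplication by `i` as a linear isometry equivalence -/
def JU : V ≃ₗᵢ[ℝ] V :=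
  { toLinearEquiv := LinearEquiv.ofLinearMap (J : V →ₗ[ℝ] V) (-(J : V →ₗ[ℝ] V))
      (by ext1 x; change J (-(J x)) = x; rw [map_neg, J_J, neg_neg])
      (by ext1 x; change -(J (J x)) = x; rw [J_J, neg_neg])
    norm_map' := norm_J }

@[simp] lemma JU_apply (x : V) : JU x = J x := rfl

theorem finrank_Fp {Φ : Sys} (hS : Symm Φ) {w : W} (hw : w ∈ D1 Φ) :
    finrank ℝ (Fp (A Φ w)) = 4 := by
  have h1 := finrank_split_anti JU (A_sym hS w) (A_J Φ w)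
  have h2 : finrank ℝ (Kr (A Φ w)) = 2 := hw.2
  rw [finrank_V, h2] at h1
  omega

/-- `(U2)` -/
theorem G_U2 {Φ : Sys} (hS : Symm Φ) {w : W} (hw : w ∈ D1 Φ) :
    volume {u : W | ∃ x ∈ Fp (A Φ w), ∃ c : ℝ, q Φ (J1 x) - c • w = u} = 0 := by
  have a1 : ContDiff ℝ 1 (fun y : Fp (A Φ w) × ℝ => J1 (y.1 : V)) :=
    J1.contDiff.comp ((Fp (A Φ w)).subtypeL.contDiff.comp contDiff_fst)
  have a2 : ContDiff ℝ 1 (fun y : Fp (A Φ w) × ℝ => q Φ (J1 (y.1 : V))) :=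
    (contDiff_q Φ).comp a1
  have a3 : ContDiff ℝ 1 (fun y : Fp (A Φ w) × ℝ => y.2 • w) := by fun_prop
  have a4 := a2.sub a3
  have h1 := null_image_of_finrank_lt (volume : Measure W) (s := Set.univ)
    (by rw [Module.finrank_prod, finrank_Fp hS hw, finrank_W]; simp) (LocLip.of_contDiff a4)
  refine measure_mono_null ?_ h1
  rintro u ⟨x, hx, c, hu⟩
  exact ⟨(⟨x, hx⟩, c), trivial, hu⟩

end

end Pool.Agent.Lib_helper32.Gen
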