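import Pool.Agent.Lib_helper32.Gen.Cons

/-! For almost every `v` the zeros of `A_+(w) v` on `D1` are isolated. -/

set_option autoImplicit false

namespace Pool.Agent.Lib_helper32.Gen

open scoped InnerProductSpace NNReal ENNReal
open Complex Set Metric Filter Topology Module MeasureTheory Pool.Agent.Flip

noncomputable section

/-- the operator `P₀ T P₀ + (1 - P₀)` -/
def TT (P₀ T : V →L[ℝ] V) : V →L[ℝ] V := P₀ * T * P₀ + (1 - P₀)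

lemma TT_apply (P₀ T : V →L[ℝ] V) (x : V) : TT P₀ T x = P₀ (T (P₀ x)) + (x - P₀ x) := by
  simp [TT]

/-- the local parametrisation of `{v : T v = 0}` -/
def Rec (P₀ : V →L[ℝ] V) (x : (V →L[ℝ] V) × V) : V :=
  Ring.inverse (TT P₀ x.1) (x.2 - P₀ (x.1 x.2))

lemma contDiffAt_Rec (P₀ : V →L[ℝ] V) {x : (V →L[ℝ] V) × V} (hx : IsUnit (TT P₀ x.1)) :
    ContDiffAt ℝ 1 (Rec P₀) x := by
  have a1 : ContDiffAt ℝ 1 (fun x : (V →L[ℝ] V) × V => TT P₀ x.1) x := by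
    have : ContDiff ℝ 1 (fun x : (V →L[ℝ] V) × V => TT P₀ x.1) := by
      unfold TT
      exact ((contDiff_const.mul contDiff_fst).mul contDiff_const).add contDiff_const
    exact this.contDiffAt
  obtain ⟨u, hu⟩ := hx
  have a2 : ContDiffAt ℝ 1 Ring.inverse (TT P₀ x.1) := by
    rw [← hu]; exact contDiffAt_ringInverse ℝ u
  have a3 : ContDiffAt ℝ 1 (fun x : (V →L[ℝ] V) × V => Ring.inverse (TT P₀ x.1)) x :=
    ContDiffAt.comp (g := Ring.inverse) (f := fun x : (V →L[ℝ] V) × V => TT P₀ x.1) x a2 a1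
  have a4 : ContDiffAt ℝ 1 (fun x : (V →L[ℝ] V) × V => x.2 - P₀ (x.1 x.2)) x := by
    have b1 : ContDiff ℝ 1 (fun x : (V →L[ℝ] V) × V => x.1 x.2) :=
      contDiff_fst.clm_apply contDiff_snd
    exact (contDiff_snd.sub (P₀.contDiff.comp b1)).contDiffAt
  exact a3.clm_apply a4

lemma Rec_eq {P₀ T : V →L[ℝ] V} (hT : IsUnit (TT P₀ T)) {v : V}
    (hv : T v = 0) : Rec P₀ (T, v - P₀ v) = v := by
  unfold Rec
  have h1 : (v - P₀ v) - P₀ (T (v - P₀ v)) = TT P₀ T v := by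
    rw [TT_apply, map_sub, hv, zero_sub, map_neg]
    abel
  simp only [h1]
  have h2 : Ring.inverse (TT P₀ T) * TT P₀ T = 1 := Ring.inverse_mul_cancel _ hT
  have h3 := congrArg (fun S : V →L[ℝ] V => S v) h2
  simpa using h3

lemma isUnit_of_injective {T : V →L[ℝ] V} (h : Function.Injective T) : IsUnit T := by
  rw [ContinuousLinearMap.isUnit_iff_bijective]
  exact ⟨h, (LinearMap.injective_iff_surjective (f := (T : V →ₗ[ℝ] V))).1 h⟩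

lemma Pr_Pr (T : V →L[ℝ] V) (x : V) : Pr T (Pr T x) = Pr T x := Pr_of_mem (Pr_mem T x)

lemma isUnit_TT {Φ : Sys} (hS : Symm Φ) (w : W) : IsUnit (TT (Pr (A Φ w)) (Ap Φ w)) := by
  apply isUnit_of_injective
  rw [injective_iff_map_eq_zero]
  intro x hx
  rw [TT_apply] at hx
  have h1 := congrArg (Pr (A Φ w)) hx
  rw [map_add, map_sub, Pr_Pr, Pr_Pr, map_zero, sub_self, add_zero] at h1
  rw [h1, zero_add, sub_eq_zero] at hx
  -- now `x ∈ Fp`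
  have hxF : x ∈ Fp (A Φ w) := by rw [hx]; exact Pr_mem _ _
  by_contra hne
  have h2 := inner_pos_of_mem_Fp (A_sym hS w) hxF hne
  have h3 : Ap Φ w (Pr (A Φ w) x) = 0 := by
    have h4 : Pr (A Φ w) (Ap Φ w (Pr (A Φ w) x)) = Ap Φ w (Pr (A Φ w) x) :=
      Pr_of_mem (pos_mem_Fp _ _)
    rw [← h4]; exact h1
  rw [← hx] at h3
  have h5 : A Φ w x = 0 := by
    rw [← pos_eq_of_mem (A_sym hS w) hxF]; exact h3
  rw [h5, inner_zero_left] at h2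
  exact lt_irrefl 0 h2

/-- the complementary space -/
abbrev Fo (Φ : Sys) (w : W) : Submodule ℝ V := (Fp (A Φ w))ᗮ

lemma finrank_Fo {Φ : Sys} (hS : Symm Φ) {w : W} (hw : w ∈ D1 Φ) : finrank ℝ (Fo Φ w) = 6 := by
  change finrank ℝ ((Fp (A Φ w))ᗮ : Submodule ℝ V) = 6
  have h1 := (Fp (A Φ w)).finrank_add_finrank_orthogonal
  rw [finrank_Fp hS hw, finrank_V] at h1
  omega

theorem isolated_near {Φ : Sys} (hS : Symm Φ) (hZ : ZeroFree Φ) {w₀ : W} (hw₀ : w₀ ∈ D1 Φ) :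
    ∃ U : Set W, IsOpen U ∧ w₀ ∈ U ∧ ∀ᵐ v : V, ∀ w₁ ∈ U ∩ D1 Φ, Ap Φ w₁ v = 0 →
      ∀ᶠ w in 𝓝[D1 Φ] w₁, Ap Φ w v = 0 → w = w₁ := by
  obtain ⟨U₀, O, p, k, ψ, C, hU, hwU, hO, hp, hk, hψ, hall⟩ := D1_chart hS hZ hw₀
  set P₀ := Pr (A Φ w₀) with hP₀
  -- the set where `TT` is invertible
  have hcT : Continuous (fun w => TT P₀ (Ap Φ w)) := by
    unfold TT
    exact ((continuous_const.mul (continuous_Ap hS)).mul continuous_const).add continuous_const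
  set Q : Set W := {w | IsUnit (TT P₀ (Ap Φ w))} with hQ
  have hQo : IsOpen Q := Units.isOpen.preimage hcT
  have hwQ : w₀ ∈ Q := isUnit_TT hS w₀
  set O' : Set (Fin 4 → ℝ) := O ∩ p ⁻¹' Q with hO'
  have hO'o : IsOpen O' := hp.continuousOn.isOpen_inter_preimage hO hQo
  -- the map
  set Ψ : (Fin 4 → ℝ) × Fo Φ w₀ → V := fun x => Rec P₀ (Ap Φ (p x.1), (x.2 : V)) with hΨ
  set s : Set ((Fin 4 → ℝ) × Fo Φ w₀) := O' ×ˢ Set.univ with hs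
  have hso : IsOpen s := hO'o.prod isOpen_univ
  have hΨL : LocLip Ψ s := by
    have b1 : LocLip (fun x : (Fin 4 → ℝ) × Fo Φ w₀ => p x.1) s :=
      LocLip.comp (g := p) (t := O) (LocLip.of_lipschitzOnWith hp)
        (LocLip.of_lipschitzWith LipschitzWith.prod_fst) (fun x hx => hx.1.1)
    have b2 : LocLip (fun x : (Fin 4 → ℝ) × Fo Φ w₀ => Ap Φ (p x.1)) s :=
      LocLip.comp (g := Ap Φ) (t := Set.univ) (locLip_Ap hS _) b1 (fun _ _ => trivial)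
    have b3 : LocLip (fun x : (Fin 4 → ℝ) × Fo Φ w₀ => (x.2 : V)) s :=
      LocLip.of_contDiff ((Fo Φ w₀).subtypeL.contDiff.comp contDiff_snd)
    have b4 : LocLip (Rec P₀) {x | IsUnit (TT P₀ x.1)} :=
      LocLip.of_contDiffAt fun x hx => contDiffAt_Rec P₀ hx
    exact LocLip.comp (g := Rec P₀) b4 (b2.prodMk b3) (fun x hx => hx.1.2)
  have hreg := ae_regular_value (volume : Measure V)
    (E := (Fin 4 → ℝ) × Fo Φ w₀) (by
      rw [Module.finrank_prod, finrank_Fo hS hw₀, finrank_V]; simp) hso hΨL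
  refine ⟨U₀ ∩ Q, hU.inter hQo, ⟨hwU, hwQ⟩, ?_⟩
  filter_upwards [hreg] with v hv w₁ hw₁ h1
  -- the constant second coordinate
  set y : Fo Φ w₀ := ⟨v - P₀ v, by
    rw [Submodule.mem_orthogonal]
    intro z hz
    rw [real_inner_comm]
    exact inner_sub_Pr v hz⟩ with hy
  have key : ∀ w ∈ (U₀ ∩ Q) ∩ D1 Φ, Ap Φ w v = 0 → (ψ w, y) ∈ s ∧ Ψ (ψ w, y) = v := by
    rintro w ⟨⟨e1, e2⟩, e3⟩ e4
    obtain ⟨f1, f2, f3, f4⟩ := hall w ⟨e1, e3⟩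
    refine ⟨⟨⟨f1, ?_⟩, trivial⟩, ?_⟩
    · change p (ψ w) ∈ Q
      rw [f2]; exact e2
    · change Rec P₀ (Ap Φ (p (ψ w)), (y : V)) = v
      rw [f2]
      exact Rec_eq e2 e4
  obtain ⟨g1, g2⟩ := key w₁ hw₁ h1
  obtain ⟨f', hf'⟩ := hv (ψ w₁, y) g1 g2
  have h2 : ∀ᶠ x in 𝓝[≠] (ψ w₁, y), Ψ x ≠ v := hf'.eventually_ne ⟨_, f'.antilipschitz⟩
  rw [eventually_nhdsWithin_iff] at h2
  have h3 : Tendsto (fun w => (ψ w, y)) (𝓝[U₀ ∩ D1 Φ] w₁) (𝓝 (ψ w₁, y)) :=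
    (hψ w₁ ⟨hw₁.1.1, hw₁.2⟩).prodMk_nhds tendsto_const_nhds
  have h4 := h3.eventually h2
  have h5 : 𝓝[U₀ ∩ D1 Φ] w₁ = 𝓝[D1 Φ] w₁ := by
    rw [inter_comm]
    exact nhdsWithin_inter_of_mem' (mem_nhdsWithin_of_mem_nhds (hU.mem_nhds hw₁.1.1))
  rw [h5] at h4
  have h6 : ∀ᶠ w in 𝓝[D1 Φ] w₁, w ∈ (U₀ ∩ Q) ∩ D1 Φ :=
    inter_mem (mem_nhdsWithin_of_mem_nhds ((hU.inter hQo).mem_nhds hw₁.1)) self_mem_nhdsWithin
  filter_upwards [h4, h6] with w hw hw' hAw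
  by_contra hne
  obtain ⟨m1, m2⟩ := key w hw' hAw
  refine hw ?_ m2
  intro heq
  rw [mem_singleton_iff, Prod.mk.injEq] at heq
  apply hne
  rw [← (hall w ⟨hw'.1.1, hw'.2⟩).2.1, heq.1, (hall w₁ ⟨hw₁.1.1, hw₁.2⟩).2.1]

theorem ae_isolated {Φ : Sys} (hS : Symm Φ) (hZ : ZeroFree Φ) :
    ∀ᵐ v : V, ∀ w₁ ∈ D1 Φ, Ap Φ w₁ v = 0 → ∀ᶠ w in 𝓝[D1 Φ] w₁, Ap Φ w v = 0 → w = w₁ := by
  have h := fun (w₀ : W) (hw₀ : w₀ ∈ D1 Φ) => isolated_near hS hZ hw₀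
  choose! U hU hwU hS' using h
  obtain ⟨C, hCT, hCc, hC⟩ := TopologicalSpace.countable_cover_nhdsWithin
    (f := U) (s := D1 Φ) (fun w hw => mem_nhdsWithin_of_mem_nhds ((hU w hw).mem_nhds (hwU w hw)))
  have h1 : ∀ᵐ v : V, ∀ w₀ ∈ C, ∀ w₁ ∈ U w₀ ∩ D1 Φ, Ap Φ w₁ v = 0 →
      ∀ᶠ w in 𝓝[D1 Φ] w₁, Ap Φ w v = 0 → w = w₁ :=
    (ae_ball_iff hCc).2 fun w₀ hw₀ => hS' w₀ (hCT hw₀)
  filter_upwards [h1] with v hv w₁ hw₁
  obtain ⟨w₀, hw₀, hw'⟩ := mem_iUnion₂.1 (hC hw₁)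
  exact hv w₀ hw₀ w₁ ⟨hw', hw₁⟩

theorem isCompact_D (Φ : Sys) : IsCompact (D Φ) := by
  have h1 : D Φ = sphere (0 : W) 1 ∩ {w | LinearMap.det (A Φ w : V →ₗ[ℝ] V) = 0} := by
    ext w
    simp only [D, mem_ofPred_eq, mem_inter_iff, mem_sphere_zero_iff_norm]
    refine and_congr_right fun _ => ?_
    rw [LinearMap.det_eq_zero_iff_ker_ne_bot, Submodule.ne_bot_iff]
    constructor
    · rintro ⟨z, hz, hz'⟩; exact ⟨z, hz', hz⟩
    · rintro ⟨z, hz', hz⟩; exact ⟨z, hz, hz'⟩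
  rw [h1]
  refine (isCompact_sphere 0 1).inter_right ?_
  refine isClosed_eq ?_ continuous_const
  exact ContinuousLinearMap.continuous_det.comp (continuous_A Φ)

/-- if no point of `D2` is a zero, and all zeros on `D1` are isolated, there are finitely many -/
theorem finite_zeros {Φ : Sys} (hS : Symm Φ) {v : V} (h2 : ∀ w ∈ D2 Φ, Ap Φ w v ≠ 0)
    (h1 : ∀ w₁ ∈ D1 Φ, Ap Φ w₁ v = 0 → ∀ᶠ w in 𝓝[D1 Φ] w₁, Ap Φ w v = 0 → w = w₁) :
    {w | w ∈ D1 Φ ∧ Ap Φ w v = 0}.Finite := by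
  set Z := {w | w ∈ D1 Φ ∧ Ap Φ w v = 0} with hZdef
  have hZc : IsCompact Z := by
    have h3 : Z = D Φ ∩ {w | Ap Φ w v = 0} := by
      ext w
      constructor
      · rintro ⟨e1, e2⟩; exact ⟨D1_subset Φ e1, e2⟩
      · rintro ⟨e1, e2⟩
        rcases D_subset Φ e1 with e3 | e3
        · exact ⟨e3, e2⟩
        · exact absurd e2 (h2 w e3)
    rw [h3]
    refine (isCompact_D Φ).inter_right (isClosed_eq ?_ continuous_const)
    exact (continuous_Ap hS).clm_apply continuous_const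
  have h4 : ∀ w ∈ Z, ({w} : Set W) ∈ 𝓝[Z] w := by
    rintro w ⟨e1, e2⟩
    have h5 := h1 w e1 e2
    have h6 : ∀ᶠ x in 𝓝[Z] w, Ap Φ x v = 0 → x = w :=
      h5.filter_mono (nhdsWithin_mono w (fun x hx => hx.1))
    filter_upwards [h6, self_mem_nhdsWithin] with x hx hxZ
    exact hx hxZ.2
  obtain ⟨t, ht, hcov⟩ := hZc.elim_nhdsWithin_subcover (fun w => ({w} : Set W)) h4
  refine t.finite_toSet.subset fun x hx => ?_
  obtain ⟨y, hy, hxy⟩ := mem_iUnion₂.1 (hcov hx)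
  rw [mem_singleton_iff] at hxy
  rw [hxy]; exact hy

theorem Ap_ne_zero {Φ : Sys} (hS : Symm Φ) {w : W} (h : phi Φ w ≠ 0) : Ap Φ w ≠ 0 := by
  intro h0
  apply h
  have h1 : ∀ x, A Φ w x = 0 := by
    intro x
    have e1 := pos_apply_sub (A_sym hS w) x
    have e2 := pos_neg_anti JU (A_sym hS w) (A_J Φ w) (JU.symm x)
    rw [JU.apply_symm_apply] at e2
    rw [e2] at e1
    have e3 : pos (A Φ w) = 0 := h0
    rw [e3] at e1
    simp at e1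
    exact e1.symm
  ext i j
  have h2 := (A_eq_zero_iff Φ w (WithLp.toLp 2 (Pi.single j 1))).1 (h1 _)
  have h3 := congrFun h2 i
  simpa using h3

theorem ae_D2_ne {Φ : Sys} (hS : Symm Φ) (h2 : (D2 Φ).Countable)
    (h3 : ∀ w : W, w ≠ 0 → phi Φ w ≠ 0) : ∀ᵐ v : V, ∀ w ∈ D2 Φ, Ap Φ w v ≠ 0 := by
  rw [ae_ball_iff h2]
  intro w hw
  have hw0 : w ≠ 0 := by
    intro h; have := hw.1; rw [h, norm_zero] at this; exact zero_ne_one this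
  have h4 : volume ((LinearMap.ker (Ap Φ w : V →ₗ[ℝ] V) : Submodule ℝ V) : Set V) = 0 := by
    refine Measure.addHaar_submodule _ _ ?_
    rw [Ne, LinearMap.ker_eq_top]
    intro h5
    apply Ap_ne_zero hS (h3 w hw0)
    ext1 x
    exact LinearMap.congr_fun h5 x
  have h5 := measure_eq_zero_iff_ae_notMem.1 h4
  filter_upwards [h5] with v hv hv0
  exact hv hv0

/-- **(G_A)** -/
theorem G_A {Φ₀ : Sys} (hS : Symm Φ₀) (hZ : ZeroFree Φ₀) : ∃ (Φ : Sys) (v : V),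
    Symm Φ ∧ ZeroFree Φ ∧ (∀ w ∈ D2 Φ, Ap Φ w v ≠ 0) ∧ {w | w ∈ D1 Φ ∧ Ap Φ w v = 0}.Finite ∧
    volume {u : W | ∃ w ∈ D Φ, ∃ t c : ℝ, q Φ (t • J1 (Ap Φ w v)) - c • w = u} = 0 := by
  obtain ⟨Φ, hS', hZ', h2, h3⟩ := exists_generic_system hS hZ
  have h4 := (ae_D2_ne hS' h2 h3).and (ae_isolated hS' hZ')
  obtain ⟨v, h5, h6⟩ := h4.exists
  exact ⟨Φ, v, hS', hZ', h5, finite_zeros hS' h5 h6, null_G1 hS' hZ' h2 v⟩

end

end Pool.Agent.Lib_helper32.Gen
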