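import Pool.Agent.Lib_helper32.Gen.FinZ
import Pool.Agent.Lib_helper97.Flip.EpsDefs

/-! Block G_B: for generic `v₁, v₂` the bivector `B_w` does not vanish on `D1`. -/

set_option autoImplicit false

namespace Pool.Agent.Lib_helper32.Gen

open scoped InnerProductSpace NNReal ENNReal
open Complex Set Metric Filter Topology Module MeasureTheory Pool.Agent.Flip

noncomputable section

/-! ### The algebraic set `x ∧ x' = y ∧ y'` has dimension at most 11 -/

abbrev R4 := Fin 4 → ℝ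

/-- `{(x,y,x',y') : x ∧ x' = y ∧ y'}` -/
def TW : Set ((R4 × R4) × (R4 × R4)) :=
  {t | ∀ i j, t.1.1 i * t.2.1 j - t.1.1 j * t.2.1 i = t.1.2 i * t.2.2 j - t.1.2 j * t.2.2 i}

def P1 (s : (R4 × R4) × (ℝ × ℝ × ℝ)) : (R4 × R4) × (R4 × R4) :=
  ((s.1.1, s.1.2), (s.2.1 • s.1.1 + s.2.2.1 • s.1.2, -(s.2.2.1 • s.1.1) + s.2.2.2 • s.1.2))

def P2 (s : (R4 × R4) × (ℝ × ℝ)) : (R4 × R4) × (R4 × R4) :=
  ((s.1.1, s.2.1 • s.1.1), (s.2.1 • s.1.2 + s.2.2 • s.1.1, s.1.2))

def P3 (s : (R4 × R4) × ℝ) : (R4 × R4) × (R4 × R4) :=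
  ((0, s.1.1), (s.1.2, s.2 • s.1.1))

def P4 (s : R4 × R4) : (R4 × R4) × (R4 × R4) := ((0, 0), (s.1, s.2))

lemma TW_subset : TW ⊆ (P1 '' univ) ∪ (P2 '' univ) ∪ (P3 '' univ) ∪ (P4 '' univ) := by
  rintro ⟨⟨x, y⟩, ⟨x', y'⟩⟩ h
  have h : ∀ i j, x i * x' j - x j * x' i = y i * y' j - y j * y' i := h
  by_cases hΔ : ∃ i j, x i * y j - x j * y i ≠ 0
  · -- independent case
    obtain ⟨i, j, hij⟩ := hΔ
    refine Or.inl (Or.inl (Or.inl ?_))
    set Δ := x i * y j - x j * y i with hΔd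
    set a := (x' i * y j - x' j * y i) / Δ with ha
    set b := (x i * x' j - x j * x' i) / Δ with hb
    set d := (x i * y' j - x j * y' i) / Δ with hd
    refine ⟨((x, y), (a, b, d)), trivial, ?_⟩
    have hx' : ∀ k, x' k = a * x k + b * y k := by
      intro k
      have e1 := h i j
      have e2 := h i k
      have e3 := h j k
      rw [ha, hb]
      field_simp
      rw [hΔd]
      linear_combination (-(y k)) * e1 + (y j) * e2 - (y i) * e3
    have hy' : ∀ k, y' k = -(b * x k) + d * y k := by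
      intro k
      have e1 := h i j
      have e2 := h i k
      have e3 := h j k
      rw [hd, hb]
      field_simp
      rw [hΔd]
      linear_combination (x j) * e2 - (x i) * e3
    refine Prod.ext_iff.2 ⟨rfl, Prod.ext_iff.2 ⟨?_, ?_⟩⟩
    · funext k
      simp only [P1, Pi.add_apply, Pi.smul_apply, smul_eq_mul]
      rw [hx' k]
    · funext k
      simp only [P1, Pi.add_apply, Pi.neg_apply, Pi.smul_apply, smul_eq_mul]
      rw [hy' k]
  · push Not at hΔ
    by_cases hx : x = 0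
    · by_cases hy : y = 0
      · refine Or.inr ⟨(x', y'), trivial, ?_⟩
        simp only [P4, hx, hy]
      · obtain ⟨i, hi⟩ : ∃ i, y i ≠ 0 := Function.ne_iff.1 hy
        refine Or.inl (Or.inr ⟨((y, x'), y' i / y i), trivial, ?_⟩)
        refine Prod.ext_iff.2 ⟨Prod.ext_iff.2 ⟨hx.symm, rfl⟩, Prod.ext_iff.2 ⟨rfl, ?_⟩⟩
        funext k
        simp only [P3, Pi.smul_apply, smul_eq_mul]
        have e1 := h i k
        rw [hx] at e1
        simp only [Pi.zero_apply, zero_mul, sub_zero] at e1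
        field_simp
        linarith
    · obtain ⟨i, hi⟩ : ∃ i, x i ≠ 0 := Function.ne_iff.1 hx
      refine Or.inl (Or.inl (Or.inr ⟨((x, y'), (y i / x i, (x' i - y i / x i * y' i) / x i)),
        trivial, ?_⟩))
      refine Prod.ext_iff.2 ⟨Prod.ext_iff.2 ⟨rfl, ?_⟩, Prod.ext_iff.2 ⟨?_, rfl⟩⟩
      · funext k
        simp only [P2, Pi.smul_apply, smul_eq_mul]
        have e1 := hΔ i k
        field_simp
        linarith
      · funext k
        simp only [P2, Pi.add_apply, Pi.smul_apply, smul_eq_mul]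
        have e1 := hΔ i k
        have e2 := h i k
        field_simp
        linear_combination (-(x i)) * e2 + (y' i) * e1

theorem smallDim_TW : SmallDim 11 TW := by
  have c1 : ContDiff ℝ 1 P1 := by unfold P1; fun_prop
  have c2 : ContDiff ℝ 1 P2 := by unfold P2; fun_prop
  have c3 : ContDiff ℝ 1 P3 := by unfold P3; fun_prop
  have c4 : ContDiff ℝ 1 P4 := by unfold P4; fun_prop
  refine SmallDim.mono ?_ TW_subset
  refine ((SmallDim.union ?_ ?_).union ?_).union ?_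
  · exact SmallDim.of_image (E := (R4 × R4) × (ℝ × ℝ × ℝ)) (by simp) (LocLip.of_contDiff c1)
      (s := Set.univ) le_rfl
  · exact SmallDim.of_image (E := (R4 × R4) × (ℝ × ℝ)) (by simp) (LocLip.of_contDiff c2)
      (s := Set.univ) le_rfl
  · exact SmallDim.of_image (E := (R4 × R4) × ℝ) (by simp) (LocLip.of_contDiff c3)
      (s := Set.univ) le_rfl
  · exact SmallDim.of_image (E := R4 × R4) (by simp) (LocLip.of_contDiff c4)
      (s := Set.univ) le_rfl

/-! ### Frames along `D1` -/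

/-- coordinates -/
def comb (b : Fin 4 → V) (x : R4) : V := ∑ i, x i • b i

/-- `v = x + J y + c₁ k + c₂ J k` in a frame `b` of the positive space and a kernel vector `k` -/
def recv (b : Fin 4 → V) (k : V) (x y : R4) (c : ℝ × ℝ) : V :=
  comb b x + J (comb b y) + c.1 • k + c.2 • J k

/-- the map from coordinates to pairs of vectors -/
def FB (z : ((Fin 4 → V) × V) × (((R4 × R4) × (R4 × R4)) × ((ℝ × ℝ) × (ℝ × ℝ)))) : V × V :=
  (recv z.1.1 z.1.2 z.2.1.1.1 z.2.1.1.2 z.2.2.1, recv z.1.1 z.1.2 z.2.1.2.1 z.2.1.2.2 z.2.2.2)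

lemma contDiff_FB : ContDiff ℝ 1 FB := by
  have hJ : ContDiff ℝ 1 (fun z : V => J z) := J.contDiff
  have hc : ∀ {E : Type} [NormedAddCommGroup E] [NormedSpace ℝ E] (f : E → Fin 4 → V)
      (g : E → R4) (_ : ContDiff ℝ 1 f) (_ : ContDiff ℝ 1 g),
      ContDiff ℝ 1 (fun z => comb (f z) (g z)) := by
    intro E _ _ f g hf hg
    unfold comb
    refine ContDiff.sum fun i _ => ?_
    exact ((contDiff_pi.1 hg) i).smul ((contDiff_pi.1 hf) i)
  have hr : ∀ {E : Type} [NormedAddCommGroup E] [NormedSpace ℝ E] (f : E → Fin 4 → V)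
      (k : E → V) (g g' : E → R4) (c : E → ℝ × ℝ) (_ : ContDiff ℝ 1 f) (_ : ContDiff ℝ 1 k)
      (_ : ContDiff ℝ 1 g) (_ : ContDiff ℝ 1 g') (_ : ContDiff ℝ 1 c),
      ContDiff ℝ 1 (fun z => recv (f z) (k z) (g z) (g' z) (c z)) := by
    intro E _ _ f k g g' c hf hk hg hg' hc'
    unfold recv
    refine ((ContDiff.add (hc f g hf hg) (hJ.comp (hc f g' hf hg'))).add ?_).add ?_
    · exact (contDiff_fst.comp hc').smul hk
    · exact (contDiff_snd.comp hc').smul (hJ.comp hk)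
  unfold FB
  refine ContDiff.prodMk ?_ ?_
  · exact hr _ _ _ _ _ (by fun_prop) (by fun_prop) (by fun_prop) (by fun_prop) (by fun_prop)
  · exact hr _ _ _ _ _ (by fun_prop) (by fun_prop) (by fun_prop) (by fun_prop) (by fun_prop)

/-- near a point of `D1` there is a Lipschitz frame of the positive space -/
theorem exists_frame_near {Φ : Sys} (hS : Symm Φ) {w₀ : W} (hw : w₀ ∈ D1 Φ) :
    ∃ (U : Set W) (f : Fin 4 → V), IsOpen U ∧ w₀ ∈ U ∧
      ∀ w ∈ U, LinearIndependent ℝ (fun i => Ap Φ w (f i)) := by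
  have hfr := finrank_Fp hS hw
  let b := finBasisOfFinrankEq ℝ (Fp (A Φ w₀)) hfr
  set f : Fin 4 → V := fun i => (b i : V) with hf
  have hli : LinearIndependent ℝ (fun i => Ap Φ w₀ (f i)) := by
    rw [Fintype.linearIndependent_iff]
    intro g hg
    have h1 : Ap Φ w₀ (∑ i, g i • f i) = 0 := by
      rw [map_sum]
      simpa using hg
    have h2 : (∑ i, g i • f i) = ((∑ i, g i • b i : Fp (A Φ w₀)) : V) := by
      simp [hf]
    have h3 : (∑ i, g i • f i) ∈ Fp (A Φ w₀) := by rw [h2]; exact Subtype.mem _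
    have h4 : ∑ i, g i • f i = 0 := by
      by_contra hne
      have h5 := inner_pos_of_mem_Fp (A_sym hS w₀) h3 hne
      have h6 : A Φ w₀ (∑ i, g i • f i) = 0 := by
        rw [← pos_eq_of_mem (A_sym hS w₀) h3]; exact h1
      rw [h6, inner_zero_left] at h5
      exact lt_irrefl 0 h5
    rw [h2] at h4
    have h5 : (∑ i, g i • b i : Fp (A Φ w₀)) = 0 := Subtype.ext h4
    exact Fintype.linearIndependent_iff.1 b.linearIndependent g h5
  have hcont : Continuous (fun w => (fun i => Ap Φ w (f i) : Fin 4 → V)) :=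
    continuous_pi fun i => (continuous_Ap hS).clm_apply continuous_const
  have hopen : IsOpen {b : Fin 4 → V | LinearIndependent ℝ b} := isOpen_setOfPred_linearIndependent
  exact ⟨_, f, hopen.preimage hcont, hli, fun w hw => hw⟩

/-- `A` is injective on the positive space -/
lemma eq_zero_of_A {Φ : Sys} (hS : Symm Φ) {w : W} {x : V} (hx : x ∈ Fp (A Φ w))
    (h : A Φ w x = 0) : x = 0 := by
  by_contra hne
  have h5 := inner_pos_of_mem_Fp (A_sym hS w) hx hne
  rw [h, inner_zero_left] at h5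
  exact lt_irrefl 0 h5

/-- decomposition of a vector in the frame -/
theorem exists_coords {Φ : Sys} (hS : Symm Φ) {w : W} (hw : w ∈ D1 Φ) {b : Fin 4 → V}
    (hb : LinearIndependent ℝ b) (hbF : ∀ i, b i ∈ Fp (A Φ w)) {k : V} (hk0 : k ≠ 0)
    (hk : A Φ w k = 0) (v : V) : ∃ x y c, v = recv b k x y c := by
  have hspan : ∀ z ∈ Fp (A Φ w), ∃ x : R4, z = comb b x := by
    intro z hz
    have h1 : Submodule.span ℝ (range b) = Fp (A Φ w) := by
      refine Submodule.eq_of_le_of_finrank_le ?_ ?_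
      · rw [Submodule.span_le]; rintro _ ⟨i, rfl⟩; exact hbF i
      · rw [finrank_span_eq_card hb, finrank_Fp hS hw]; simp
    rw [← h1, Submodule.mem_span_range_iff_exists_fun] at hz
    obtain ⟨c, hc⟩ := hz
    exact ⟨c, hc.symm⟩
  obtain ⟨κ, hκ, p, hp, n, hn, rfl⟩ := exists_decomp (A_sym hS w) v
  obtain ⟨x, rfl⟩ := hspan p hp
  rw [Fp_neg_eq_map JU (A_sym hS w) (A_J Φ w)] at hn
  obtain ⟨n', hn', rfl⟩ := hn
  obtain ⟨y, rfl⟩ := hspan n' hn'
  have hu := unitKer_of hw hk0 hk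
  have h2 := hu.span κ hκ
  refine ⟨x, y, (⟪‖k‖⁻¹ • k, κ⟫_ℝ * ‖k‖⁻¹, ⟪J (‖k‖⁻¹ • k), κ⟫_ℝ * ‖k‖⁻¹), ?_⟩
  unfold recv
  change κ + comb b x + J (comb b y) = _
  conv_lhs => rw [h2]
  rw [map_smul J, smul_smul, smul_smul]
  abel

/-- `X` and `Y` in coordinates -/
lemma Ap_recv {Φ : Sys} (hS : Symm Φ) {w : W} {b : Fin 4 → V}
    (hbF : ∀ i, b i ∈ Fp (A Φ w)) {k : V} (hk : A Φ w k = 0) (x y : R4) (c : ℝ × ℝ) :
    Ap Φ w (recv b k x y c) = A Φ w (comb b x) ∧
    -(Ap Φ w (J (recv b k x y c))) = A Φ w (comb b y) := by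
  have hc : ∀ x, comb b x ∈ Fp (A Φ w) := fun x =>
    Submodule.sum_mem _ fun i _ => Submodule.smul_mem _ _ (hbF i)
  have hpos : ∀ x, Ap Φ w (comb b x) = A Φ w (comb b x) := fun x =>
    pos_eq_of_mem (A_sym hS w) (hc x)
  have hneg : ∀ x, Ap Φ w (J (comb b x)) = 0 := fun x =>
    pos_of_mem_neg (A_sym hS w) (map_Fp_anti JU (A_sym hS w) (A_J Φ w) (hc x))
  have hk1 : Ap Φ w k = 0 := ((mem_Kr_iff (A_sym hS w)).1 hk).1
  have hk2 : Ap Φ w (J k) = 0 := ((mem_Kr_iff (A_sym hS w)).1 (A_J_eq_zero hk)).1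
  unfold recv
  constructor
  · simp only [map_add, map_smul, hpos, hneg, hk1, hk2, smul_zero, add_zero]
  · simp only [map_add, map_smul, J_J, map_neg, hpos, hneg, hk1, hk2, smul_zero, add_zero,
      neg_zero, zero_add, neg_neg]

/-- if `B_w = 0` then the coordinates lie in `TW` -/
theorem mem_TW {Φ : Sys} (hS : Symm Φ) {w : W} {b : Fin 4 → V}
    (hb : LinearIndependent ℝ b) (hbF : ∀ i, b i ∈ Fp (A Φ w)) {k : V} (hk : A Φ w k = 0)
    (x y x' y' : R4) (c c' : ℝ × ℝ)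
    (h : ∀ f, Bw Φ (recv b k x y c) (recv b k x' y' c') w f = 0) :
    ((x, y), (x', y')) ∈ TW := by
  have hsym := A_sym hS w
  have hc : ∀ x, comb b x ∈ Fp (A Φ w) := fun x =>
    Submodule.sum_mem _ fun i _ => Submodule.smul_mem _ _ (hbF i)
  obtain ⟨e1, e2⟩ := Ap_recv hS hbF hk x y c
  obtain ⟨e3, e4⟩ := Ap_recv hS hbF hk x' y' c'
  set X := comb b x
  set Y := comb b y
  set X' := comb b x'
  set Y' := comb b y'
  -- step 1: the relation for `g = A f`
  have h1 : ∀ f, ⟪X', A Φ w f⟫_ℝ • X - ⟪X, A Φ w f⟫_ℝ • X' - ⟪Y', A Φ w f⟫_ℝ • Y +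
      ⟪Y, A Φ w f⟫_ℝ • Y' = 0 := by
    intro f
    apply eq_zero_of_A hS (w := w)
    · exact Submodule.add_mem _ (Submodule.sub_mem _ (Submodule.sub_mem _
        (Submodule.smul_mem _ _ (hc x)) (Submodule.smul_mem _ _ (hc x')))
        (Submodule.smul_mem _ _ (hc y))) (Submodule.smul_mem _ _ (hc y'))
    · have h2 := h f
      unfold Bw Bop Xv Yv at h2
      rw [e1, e2, e3, e4] at h2
      rw [map_add, map_sub, map_sub, map_smul, map_smul, map_smul, map_smul]
      rw [← hsym X' f, ← hsym X f, ← hsym Y' f, ← hsym Y f]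
      exact h2
  -- step 2: coordinates
  have hcomb0 : ∀ z : R4, comb b z = 0 → z = 0 := by
    intro z hz
    funext i
    exact Fintype.linearIndependent_iff.1 hb z hz i
  have hcadd : ∀ (s t r u : ℝ), s • X - t • X' - r • Y + u • Y' =
      comb b (s • x - t • x' - r • y + u • y') := by
    intro s t r u
    simp only [X, X', Y, Y', comb, Finset.smul_sum, ← Finset.sum_sub_distrib,
      ← Finset.sum_add_distrib]
    refine Finset.sum_congr rfl fun i _ => ?_
    simp only [Pi.add_apply, Pi.sub_apply, Pi.smul_apply, smul_eq_mul]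
    module
  have h3 : ∀ f i, ⟪X', A Φ w f⟫_ℝ * x i - ⟪X, A Φ w f⟫_ℝ * x' i - ⟪Y', A Φ w f⟫_ℝ * y i +
      ⟪Y, A Φ w f⟫_ℝ * y' i = 0 := by
    intro f i
    have h4 := h1 f
    rw [hcadd] at h4
    have h5 := congrFun (hcomb0 _ h4) i
    simpa using h5
  -- step 3: the vector `u_i`
  have h4 : ∀ i, x i • X' - x' i • X - y i • Y' + y' i • Y = 0 := by
    intro i
    apply eq_zero_of_A hS (w := w)
    · exact Submodule.add_mem _ (Submodule.sub_mem _ (Submodule.sub_mem _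
        (Submodule.smul_mem _ _ (hc x')) (Submodule.smul_mem _ _ (hc x)))
        (Submodule.smul_mem _ _ (hc y'))) (Submodule.smul_mem _ _ (hc y))
    · refine ext_inner_right ℝ fun f => ?_
      rw [hsym, inner_zero_left]
      simp only [inner_add_left, inner_sub_left, real_inner_smul_left]
      have := h3 f i
      linarith
  intro i j
  have h5 := h4 i
  have h6 : x i • X' - x' i • X - y i • Y' + y' i • Y =
      comb b (x i • x' - x' i • x - y i • y' + y' i • y) := by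
    simp only [X, X', Y, Y', comb, Finset.smul_sum, ← Finset.sum_sub_distrib,
      ← Finset.sum_add_distrib]
    refine Finset.sum_congr rfl fun i _ => ?_
    simp only [Pi.add_apply, Pi.sub_apply, Pi.smul_apply, smul_eq_mul]
    module
  rw [h6] at h5
  have h7 := congrFun (hcomb0 _ h5) j
  simp only [Pi.add_apply, Pi.sub_apply, Pi.smul_apply, smul_eq_mul, Pi.zero_apply] at h7
  linarith

/-- **(G_B)** -/
theorem G_B {Φ : Sys} (hS : Symm Φ) (hZ : ZeroFree Φ) :
    ∃ v1 v2 : V, ∀ w ∈ D1 Φ, ∃ f, Bw Φ v1 v2 w f ≠ 0 := by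
  have key : SmallDim (4 + (11 + 4)) (⋃ w ∈ D1 Φ, {v : V × V | ∀ f, Bw Φ v.1 v.2 w f = 0}) := by
    refine smallDim_of_local fun w₀ hw₀ => ?_
    obtain ⟨k₀, hk₀⟩ := exists_unitKer hw₀
    obtain ⟨U₁, k, C, hU₁, hw₁, hkL, hk, -⟩ := exists_kernel_section hk₀
    obtain ⟨U₂, f, hU₂, hw₂, hli⟩ := exists_frame_near hS hw₀
    refine ⟨U₁ ∩ U₂, hU₁.inter hU₂, ⟨hw₁, hw₂⟩, ?_⟩
    set S := (U₁ ∩ U₂) ∩ D1 Φ with hSdef
    have hS4 : SmallDim 4 S := (smallDim_D1 hS hZ).mono inter_subset_right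
    set T : Set (W × (((R4 × R4) × (R4 × R4)) × ((ℝ × ℝ) × (ℝ × ℝ)))) := S ×ˢ (TW ×ˢ Set.univ)
    have h1 : SmallDim (4 + (11 + 4)) T := hS4.prod (smallDim_TW.prod (SmallDim.univ (by simp)))
    have h2 : LocLip (fun w => ((fun i => Ap Φ w (f i), k w) : (Fin 4 → V) × V)) S := by
      refine LocLip.prodMk ?_ (LocLip.of_lipschitzOnWith (hkL.mono ?_))
      · have h3 : ContDiff ℝ 1 (fun T : V →L[ℝ] V => (fun i => T (f i) : Fin 4 → V)) := by
          rw [contDiff_pi]
          intro i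
          exact contDiff_id.clm_apply contDiff_const
        exact LocLip.comp (LocLip.of_contDiff (s := Set.univ) h3) (locLip_Ap hS S)
          (fun _ _ => trivial)
      · rintro w ⟨⟨a1, a2⟩, a3⟩; exact ⟨a1, a3⟩
    have h3 : LocLip (fun z : W × (((R4 × R4) × (R4 × R4)) × ((ℝ × ℝ) × (ℝ × ℝ))) =>
        ((((fun i => Ap Φ z.1 (f i), k z.1) : (Fin 4 → V) × V), z.2) :
          ((Fin 4 → V) × V) × (((R4 × R4) × (R4 × R4)) × ((ℝ × ℝ) × (ℝ × ℝ))))) T := by
      refine LocLip.prodMk ?_ (LocLip.of_lipschitzWith LipschitzWith.prod_snd)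
      exact LocLip.comp (g := fun w => ((fun i => Ap Φ w (f i), k w) : (Fin 4 → V) × V)) h2
        (LocLip.of_lipschitzWith LipschitzWith.prod_fst) (fun z hz => hz.1)
    have h4 := h1.image (LocLip.comp (LocLip.of_contDiff (s := Set.univ) contDiff_FB) h3
      (fun _ _ => trivial))
    refine h4.mono ?_
    intro v hv
    obtain ⟨w, hw, hvw⟩ := mem_iUnion₂.1 hv
    have hwD : w ∈ D1 Φ := hw.2
    have hkw := hk w ⟨hw.1.1, hw.2⟩
    have hk0 : k w ≠ 0 := by
      intro h0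
      have := hkw.2.1
      rw [h0, inner_zero_right] at this
      exact zero_ne_one this
    have hbF : ∀ i, Ap Φ w (f i) ∈ Fp (A Φ w) := fun i => pos_mem_Fp _ _
    obtain ⟨x, y, c, hv1⟩ := exists_coords hS hwD (hli w hw.1.2) hbF hk0 hkw.1 v.1
    obtain ⟨x', y', c', hv2⟩ := exists_coords hS hwD (hli w hw.1.2) hbF hk0 hkw.1 v.2
    refine ⟨(w, (((x, y), (x', y')), (c, c'))), ⟨hw, ?_, trivial⟩, ?_⟩
    · refine mem_TW hS (hli w hw.1.2) hbF hkw.1 x y x' y' c c' ?_
      intro g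
      have := hvw g
      rw [hv1, hv2] at this
      exact this
    · exact Prod.ext_iff.2 ⟨hv1.symm, hv2.symm⟩
  borelize (V × V)
  have hnull := key.null (μH[finrank ℝ (V × V)] : Measure (V × V)) (by
    rw [Module.finrank_prod, finrank_V]; norm_num)
  obtain ⟨v, hv⟩ := (measure_eq_zero_iff_ae_notMem.1 hnull).exists
  refine ⟨v.1, v.2, fun w hw => ?_⟩
  by_contra hcon
  push Not at hcon
  exact hv (mem_iUnion₂.2 ⟨w, hw, hcon⟩)

end

end Pool.Agent.Lib_helper32.Gen
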