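import Pool.Agent.Lib_helper32.Gen.Cons

/-! Block G_C: generic linear maps `L : ℝ⁴ → ℝ⁷`. -/

set_option autoImplicit false

namespace Pool.Agent.Lib_helper32.Gen

open scoped InnerProductSpace NNReal ENNReal
open Complex Set Metric Filter Topology Module MeasureTheory Pool.Agent.Flip

noncomputable section

/-- solve `∑ a_j M_j = λ b` for `M_i` -/
def solveM (i : Fin 4) (x : ((Fin 4 → ℝ) × W) × (ℝ × (Fin 3 → W))) : Fin 4 → W :=
  i.insertNth (α := fun _ => W)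
    ((x.1.1 i)⁻¹ • (x.2.1 • x.1.2 - ∑ j, x.1.1 (i.succAbove j) • x.2.2 j)) x.2.2

lemma contDiffAt_solveM (i : Fin 4) {x : ((Fin 4 → ℝ) × W) × (ℝ × (Fin 3 → W))}
    (hx : x.1.1 i ≠ 0) : ContDiffAt ℝ 1 (solveM i) x := by
  rw [contDiffAt_pi]
  intro j
  refine Fin.succAboveCases i (α := fun j => ContDiffAt ℝ 1 (fun x => solveM i x j) x) ?_ ?_ j
  · have h : (fun x => solveM i x i) = fun x : ((Fin 4 → ℝ) × W) × (ℝ × (Fin 3 → W)) =>
        (x.1.1 i)⁻¹ • (x.2.1 • x.1.2 - ∑ j, x.1.1 (i.succAbove j) • x.2.2 j) := by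
      funext x
      simp [solveM]
    rw [h]
    have h1 : ContDiff ℝ 1 (fun x : ((Fin 4 → ℝ) × W) × (ℝ × (Fin 3 → W)) => x.1.1 i) := by
      fun_prop
    have h2 : ContDiff ℝ 1 (fun x : ((Fin 4 → ℝ) × W) × (ℝ × (Fin 3 → W)) =>
        x.2.1 • x.1.2 - ∑ j, x.1.1 (i.succAbove j) • x.2.2 j) := by
      fun_prop
    exact (h1.contDiffAt.inv hx).smul h2.contDiffAt
  · intro k
    have h : (fun x => solveM i x (i.succAbove k)) =
        fun x : ((Fin 4 → ℝ) × W) × (ℝ × (Fin 3 → W)) => x.2.2 k := by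
      funext x
      simp [solveM]
    rw [h]
    fun_prop

lemma smallDim_bad {X : Type*} [PseudoEMetricSpace X] {m : ℕ} {S : Set X} (hS : SmallDim m S)
    {a : X → Fin 4 → ℝ} {b : X → W} (ha : LocLip a S) (hb : LocLip b S) (i : Fin 4) :
    SmallDim (m + (1 + 21)) {M : Fin 4 → W | ∃ x ∈ S, a x i ≠ 0 ∧ ∃ l : ℝ,
      ∑ j, a x j • M j = l • b x} := by
  set T : Set (X × (ℝ × (Fin 3 → W))) := {x | x ∈ S ∧ a x i ≠ 0} ×ˢ (Set.univ ×ˢ Set.univ) with hT
  have h1 : SmallDim (m + (1 + 21)) T := by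
    refine (hS.mono (fun x hx => hx.1)).prod ((SmallDim.univ (by simp)).prod (SmallDim.univ ?_))
    rw [Module.finrank_pi_fintype]
    simp
  have h2 : LocLip (fun x : X × (ℝ × (Fin 3 → W)) => (((a x.1, b x.1), x.2) :
      ((Fin 4 → ℝ) × W) × (ℝ × (Fin 3 → W)))) T := by
    refine LocLip.prodMk (LocLip.prodMk ?_ ?_) (LocLip.of_lipschitzWith LipschitzWith.prod_snd)
    · exact LocLip.comp (g := a) ha (LocLip.of_lipschitzWith LipschitzWith.prod_fst)
        (fun x hx => hx.1.1)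
    · exact LocLip.comp (g := b) hb (LocLip.of_lipschitzWith LipschitzWith.prod_fst)
        (fun x hx => hx.1.1)
  have h3 : LocLip (solveM i) {x | x.1.1 i ≠ 0} :=
    LocLip.of_contDiffAt fun x hx => contDiffAt_solveM i hx
  have h4 := h1.image (LocLip.comp h3 h2 (fun x hx => hx.1.2))
  refine h4.mono ?_
  rintro M ⟨x, hx, hxi, l, hl⟩
  refine ⟨(x, l, fun j => M (i.succAbove j)), ⟨⟨hx, hxi⟩, trivial, trivial⟩, ?_⟩
  change solveM i ((a x, b x), (l, fun j => M (i.succAbove j))) = M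
  unfold solveM
  rw [Fin.insertNth_eq_iff]
  refine ⟨?_, rfl⟩
  simp only
  rw [← hl, Fin.sum_univ_succAbove _ i, add_sub_cancel_right, smul_smul, inv_mul_cancel₀ hxi,
    one_smul]

/-- the linear map with columns `M` -/
def colMap (M : Fin 4 → W) : (Fin 4 → ℝ) →L[ℝ] W :=
  LinearMap.toContinuousLinearMap (Fintype.linearCombination ℝ M)

lemma colMap_apply (M : Fin 4 → W) (x : Fin 4 → ℝ) : colMap M x = ∑ j, x j • M j := by
  simp [colMap, Fintype.linearCombination_apply]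

/-- **(G_C)** -/
theorem G_C {Φ : Sys} (hS : Symm Φ) (hZ : ZeroFree Φ) {S : Set W} (hSD : S ⊆ D1 Φ)
    {g : W → (Fin 4 → ℝ)} (hg0 : ∀ w ∈ S, g w ≠ 0)
    (hg : ∀ w ∈ S, ∃ K : NNReal, ∃ t ∈ 𝓝[S] w, LipschitzOnWith K g t) :
    ∃ (L : (Fin 4 → ℝ) →L[ℝ] W) (L' : ℂ →L[ℝ] W), (∀ x y, L x + L' y = 0 → x = 0 ∧ y = 0) ∧
      (∀ w ∈ S, ∀ s ∈ Icc (0 : ℝ) 1, -((1 - s) • w) + s • L (g w) ≠ 0) ∧
      volume {u : W | ∃ w ∈ S, ∃ s ∈ Icc (0 : ℝ) 1, ∃ μ : ℝ,
        μ • (-((1 - s) • w) + s • L (g w)) = u} = 0 := by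
  have hS4 : SmallDim 4 S := (smallDim_D1 hS hZ).mono hSD
  have hgL : LocLip g S := hg
  borelize (Fin 4 → W)
  have hfr : finrank ℝ (Fin 4 → W) = 28 := by
    rw [Module.finrank_pi_fintype]
    simp
  -- generic choice of `M`
  have b1 : ∀ᵐ M ∂(μH[finrank ℝ (Fin 4 → W)] : Measure (Fin 4 → W)), ∀ i : Fin 4,
      M ∉ {M : Fin 4 → W | ∃ w ∈ S, g w i ≠ 0 ∧ ∃ l : ℝ, ∑ j, g w j • M j = l • w} := by
    rw [ae_all_iff]
    intro i
    exact measure_eq_zero_iff_ae_notMem.1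
      ((smallDim_bad hS4 hgL (b := fun w => w) (LocLip.of_lipschitzWith LipschitzWith.id) i).null _
        (by rw [hfr]; norm_num))
  have b2 : ∀ᵐ M ∂(μH[finrank ℝ (Fin 4 → W)] : Measure (Fin 4 → W)), ∀ i : Fin 4,
      M ∉ {M : Fin 4 → W | ∃ x ∈ (Set.univ : Set (Fin 4 → ℝ)), x i ≠ 0 ∧ ∃ l : ℝ,
        ∑ j, x j • M j = l • (0 : W)} := by
    rw [ae_all_iff]
    intro i
    exact measure_eq_zero_iff_ae_notMem.1
      ((smallDim_bad (m := 4) (SmallDim.univ (by simp)) (a := fun x => x)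
        (LocLip.of_lipschitzWith LipschitzWith.id) (b := fun _ => (0 : W))
        (LocLip.of_lipschitzWith (LipschitzWith.const 0)) i).null _
        (by rw [hfr]; norm_num))
  obtain ⟨M, hM1, hM2⟩ := (b1.and b2).exists
  have hinj : ∀ x, colMap M x = 0 → x = 0 := by
    intro x hx
    by_contra hne
    obtain ⟨i, hi⟩ : ∃ i, x i ≠ 0 := Function.ne_iff.1 hne
    refine hM2 i ⟨x, trivial, hi, 0, ?_⟩
    rw [← colMap_apply, hx, smul_zero]
  -- the complement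
  set R : Submodule ℝ W := LinearMap.range (colMap M : (Fin 4 → ℝ) →ₗ[ℝ] W) with hR
  have hRf : finrank ℝ R = 4 := by
    rw [hR, LinearMap.finrank_range_of_inj]
    · simp
    · intro x y hxy
      have := hinj (x - y) (by rw [map_sub]; exact sub_eq_zero.2 hxy)
      exact sub_eq_zero.1 this
  have hRo : finrank ℝ (Rᗮ : Submodule ℝ W) = 3 := by
    have := R.finrank_add_finrank_orthogonal
    rw [hRf, finrank_W] at this
    omega
  let bb := finBasisOfFinrankEq ℝ (Rᗮ : Submodule ℝ W) hRo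
  let L'0 : ℂ →ₗ[ℝ] (Rᗮ : Submodule ℝ W) :=
    (Complex.reLm).smulRight (bb 0) + (Complex.imLm).smulRight (bb 1)
  have hL'0 : ∀ y, L'0 y = 0 → y = 0 := by
    intro y hy
    have h1 : y.re • bb 0 + y.im • bb 1 = 0 := hy
    have h2 := congrArg (fun z => bb.repr z 0) h1
    have h3 := congrArg (fun z => bb.repr z 1) h1
    simp at h2 h3
    exact Complex.ext h2 h3
  refine ⟨colMap M, (Rᗮ : Submodule ℝ W).subtypeL.comp (LinearMap.toContinuousLinearMap L'0),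
    ?_, ?_, ?_⟩
  · intro x y hxy
    have h1 : colMap M x + ((L'0 y : (Rᗮ : Submodule ℝ W)) : W) = 0 := hxy
    have h2 : colMap M x ∈ R := ⟨x, rfl⟩
    have h3 : ⟪colMap M x, ((L'0 y : (Rᗮ : Submodule ℝ W)) : W)⟫_ℝ = 0 :=
      (Submodule.mem_orthogonal _ _).1 (L'0 y).2 _ h2
    have h4 : ⟪colMap M x, colMap M x⟫_ℝ = 0 := by
      have h5 := congrArg (fun z => ⟪colMap M x, z⟫_ℝ) h1
      simp only [inner_add_right, h3, inner_zero_right, add_zero] at h5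
      exact h5
    have h5 : colMap M x = 0 := inner_self_eq_zero.1 h4
    rw [h5, zero_add] at h1
    exact ⟨hinj x h5, hL'0 y (Subtype.ext h1)⟩
  · intro w hw s hs h0
    have hwn : ‖w‖ = 1 := (hSD hw).1
    obtain ⟨i, hi⟩ : ∃ i, g w i ≠ 0 := Function.ne_iff.1 (hg0 w hw)
    by_cases hs0 : s = 0
    · rw [hs0] at h0
      simp at h0
      rw [h0, norm_zero] at hwn
      exact zero_ne_one hwn
    · refine hM1 i ⟨w, hw, hi, s⁻¹ * (1 - s), ?_⟩
      rw [← colMap_apply]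
      have h1 : s • colMap M (g w) = (1 - s) • w := by
        rw [← sub_eq_zero, ← h0]; abel
      rw [← smul_smul, ← h1, smul_smul, inv_mul_cancel₀ hs0, one_smul]
  · have c1 : SmallDim (4 + (1 + 1)) (S ×ˢ ((Set.univ : Set ℝ) ×ˢ (Set.univ : Set ℝ))) :=
      hS4.prod ((SmallDim.univ (by simp)).prod (SmallDim.univ (by simp)))
    have c2 : LocLip (fun x : W × ℝ × ℝ => ((g x.1, x) : (Fin 4 → ℝ) × (W × ℝ × ℝ)))
        (S ×ˢ ((Set.univ : Set ℝ) ×ˢ (Set.univ : Set ℝ))) :=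
      LocLip.prodMk (LocLip.comp (g := g) hgL (LocLip.of_lipschitzWith LipschitzWith.prod_fst)
        (fun x hx => hx.1)) (LocLip.of_lipschitzWith LipschitzWith.id)
    have c3 : ContDiff ℝ 1 (fun y : (Fin 4 → ℝ) × (W × ℝ × ℝ) =>
        y.2.2.2 • (-((1 - y.2.2.1) • y.2.1) + y.2.2.1 • colMap M y.1)) := by
      have d1 : ContDiff ℝ 1 (fun y : (Fin 4 → ℝ) × (W × ℝ × ℝ) => colMap M y.1) :=
        (colMap M).contDiff.comp contDiff_fst
      have d2 : ContDiff ℝ 1 (fun y : (Fin 4 → ℝ) × (W × ℝ × ℝ) => y.2.2.2) := by fun_prop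
      have d3 : ContDiff ℝ 1 (fun y : (Fin 4 → ℝ) × (W × ℝ × ℝ) => -((1 - y.2.2.1) • y.2.1)) := by
        fun_prop
      have d4 : ContDiff ℝ 1 (fun y : (Fin 4 → ℝ) × (W × ℝ × ℝ) => y.2.2.1) := by fun_prop
      exact d2.smul (d3.add (d4.smul d1))
    have c4 := c1.image (LocLip.comp (LocLip.of_contDiff (s := Set.univ) c3) c2
      (fun _ _ => trivial))
    have c5 := c4.null (volume : Measure W) (by rw [finrank_W]; norm_num)
    refine measure_mono_null ?_ c5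
    rintro u ⟨w, hw, s, hs, μ, hu⟩
    exact ⟨(w, s, μ), ⟨hw, trivial, trivial⟩, hu⟩

end

end Pool.Agent.Lib_helper32.Gen
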