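import Pool.Agent.Lib_helper47.Flip.Base
import Pool.Agent.Lib_helper32.Gen.SmallDim

/-! The kernel line along `D1`: normalised kernel vector, locally Lipschitz. -/

set_option autoImplicit false

namespace Pool.Agent.Lib_helper32.Gen

open scoped InnerProductSpace NNReal
open Complex Set Metric Filter Topology Module Pool.Agent.Flip

noncomputable section

/-- `A` as a continuous linear map in `w`. -/
def ALc (Φ : Sys) : W →L[ℝ] V →L[ℝ] V := LinearMap.toContinuousLinearMap (AL Φ)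

@[simp] lemma ALc_apply (Φ : Sys) (w : W) : ALc Φ w = A Φ w := rfl

lemma norm_A_sub_le (Φ : Sys) (w w' : W) : ‖A Φ w - A Φ w'‖ ≤ ‖ALc Φ‖ * ‖w - w'‖ := by
  have h := (ALc Φ).le_opNorm (w - w')
  rwa [map_sub, ALc_apply, ALc_apply] at h

/-- unit kernel vector at a point of `D1` -/
structure UnitKer (Φ : Sys) (w₀ : W) (k₀ : V) : Prop where
  norm_eq : ‖k₀‖ = 1
  ker_eq : A Φ w₀ k₀ = 0
  span : ∀ z, A Φ w₀ z = 0 → z = ⟪k₀, z⟫_ℝ • k₀ + ⟪J k₀, z⟫_ℝ • J k₀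

lemma A_J_eq_zero {Φ : Sys} {w : W} {z : V} (h : A Φ w z = 0) : A Φ w (J z) = 0 := by
  rw [A_J, h, map_zero, neg_zero]

theorem unitKer_of {Φ : Sys} {w₀ : W} (hw : w₀ ∈ D1 Φ) {z : V} (hz0 : z ≠ 0)
    (hz : A Φ w₀ z = 0) : UnitKer Φ w₀ (‖z‖⁻¹ • z) := by
  obtain ⟨-, h2⟩ := hw
  have hzn : ‖z‖ ≠ 0 := norm_ne_zero_iff.2 hz0
  set k₀ := ‖z‖⁻¹ • z with hk
  have hk1 : ‖k₀‖ = 1 := by
    rw [hk, norm_smul, norm_inv, norm_norm, inv_mul_cancel₀ hzn]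
  have hk2 : A Φ w₀ k₀ = 0 := by rw [hk, map_smul, hz, smul_zero]
  refine ⟨hk1, hk2, fun x hx => ?_⟩
  have hkk : ⟪k₀, k₀⟫_ℝ = 1 := by rw [real_inner_self_eq_norm_sq, hk1]; norm_num
  have hJk : ⟪J k₀, J k₀⟫_ℝ = 1 := by rw [inner_J, hkk]
  have hJ0 : ⟪J k₀, k₀⟫_ℝ = 0 := inner_J_self k₀
  have hJ0' : ⟪k₀, J k₀⟫_ℝ = 0 := by rw [real_inner_comm]; exact hJ0
  -- the span
  have hli : LinearIndependent ℝ ![k₀, J k₀] := by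
    rw [LinearIndependent.pair_iff]
    intro s t hst
    have e1 := congrArg (fun y => ⟪k₀, y⟫_ℝ) hst
    have e2 := congrArg (fun y => ⟪J k₀, y⟫_ℝ) hst
    simp only [inner_add_right, inner_smul_right, hkk, hJ0', hJk, hJ0, inner_zero_right] at e1 e2
    constructor <;> linarith
  have hfr : finrank ℝ (Submodule.span ℝ (Set.range ![k₀, J k₀])) = 2 := by
    rw [finrank_span_eq_card hli]; simp
  have hle : Submodule.span ℝ (Set.range ![k₀, J k₀]) ≤ LinearMap.ker (A Φ w₀).toLinearMap := by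
    rw [Submodule.span_le]
    rintro _ ⟨i, rfl⟩
    fin_cases i
    · exact hk2
    · exact A_J_eq_zero hk2
  have heq := Submodule.eq_of_le_of_finrank_le hle (by rw [hfr, h2])
  have hx' : x ∈ Submodule.span ℝ (Set.range ![k₀, J k₀]) := by
    rw [heq]; exact hx
  have hr : Set.range ![k₀, J k₀] = {k₀, J k₀} := by
    simp [Matrix.range_cons, Set.pair_comm]
  rw [hr, Submodule.mem_span_pair] at hx'
  obtain ⟨a, b, rfl⟩ := hx'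
  simp only [inner_add_right, inner_smul_right, hkk, hJ0', hJk, hJ0]
  simp

theorem exists_unitKer {Φ : Sys} {w₀ : W} (hw : w₀ ∈ D1 Φ) : ∃ k₀, UnitKer Φ w₀ k₀ := by
  have hne : ∃ z : V, z ≠ 0 ∧ A Φ w₀ z = 0 := by
    have h2 := hw.2
    have h3 : (LinearMap.ker (A Φ w₀).toLinearMap) ≠ ⊥ := by
      intro h
      rw [h, finrank_bot] at h2
      exact absurd h2 (by norm_num)
    obtain ⟨z, hz, hz0⟩ := Submodule.exists_mem_ne_zero_of_ne_bot h3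
    exact ⟨z, hz0, hz⟩
  obtain ⟨z, hz0, hz⟩ := hne
  exact ⟨_, unitKer_of hw hz0 hz⟩

/-- the two linear functionals normalising kernel vectors -/
def nrm (k₀ : V) : V →L[ℝ] ℝ × ℝ := (innerSL ℝ k₀).prod (innerSL ℝ (J k₀))

@[simp] lemma nrm_apply (k₀ z : V) : nrm k₀ z = (⟪k₀, z⟫_ℝ, ⟪J k₀, z⟫_ℝ) := rfl

/-- `z ↦ (A(w) z, ⟪k₀,z⟫, ⟪Jk₀,z⟫)` -/
def LL (Φ : Sys) (k₀ : V) (w : W) : V →L[ℝ] V × (ℝ × ℝ) := (A Φ w).prod (nrm k₀)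

@[simp] lemma LL_apply (Φ : Sys) (k₀ : V) (w : W) (z : V) :
    LL Φ k₀ w z = (A Φ w z, (⟪k₀, z⟫_ℝ, ⟪J k₀, z⟫_ℝ)) := rfl

theorem exists_LL_bound {Φ : Sys} {w₀ : W} {k₀ : V} (h : UnitKer Φ w₀ k₀) :
    ∃ K > 0, ∃ U : Set W, IsOpen U ∧ w₀ ∈ U ∧ ∀ w ∈ U, ∀ z, ‖z‖ ≤ K * ‖LL Φ k₀ w z‖ := by
  have hinj : LinearMap.ker (LL Φ k₀ w₀ : V →ₗ[ℝ] V × (ℝ × ℝ)) = ⊥ := by
    rw [LinearMap.ker_eq_bot']
    intro z hz
    change LL Φ k₀ w₀ z = 0 at hz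
    rw [LL_apply, Prod.mk_eq_zero, Prod.mk_eq_zero] at hz
    obtain ⟨h1, h2, h3⟩ := hz
    rw [h.span z h1, h2, h3]; simp
  obtain ⟨K, hK0, hK⟩ := (LL Φ k₀ w₀ : V →ₗ[ℝ] V × (ℝ × ℝ)).exists_antilipschitzWith hinj
  have hb : ∀ z, ‖z‖ ≤ K * ‖LL Φ k₀ w₀ z‖ := by
    intro z
    have := hK.le_mul_dist z 0
    rw [dist_zero_right, map_zero, dist_zero_right] at this
    exact this
  have hKpos : (0 : ℝ) < K := by exact_mod_cast hK0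
  refine ⟨2 * K, by positivity, Metric.ball w₀ (1 / (2 * K * (‖ALc Φ‖ + 1))), Metric.isOpen_ball,
    Metric.mem_ball_self (by positivity), fun w hw z => ?_⟩
  rw [Metric.mem_ball, dist_eq_norm] at hw
  have h1 : ‖LL Φ k₀ w₀ z‖ ≤ ‖LL Φ k₀ w z‖ + ‖ALc Φ‖ * ‖w - w₀‖ * ‖z‖ := by
    have h2 : LL Φ k₀ w₀ z = LL Φ k₀ w z - (A Φ (w - w₀) z, (0, 0)) := by
      rw [LL_apply, LL_apply, Prod.mk_sub_mk, A_sub]
      simp
    rw [h2]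
    refine (norm_sub_le _ _).trans (add_le_add le_rfl ?_)
    have h3 : ‖((A Φ (w - w₀) z, ((0 : ℝ), (0 : ℝ))) : V × (ℝ × ℝ))‖ = ‖A Φ (w - w₀) z‖ := by
      rw [Prod.norm_def]; simp
    rw [h3]
    refine ((A Φ (w - w₀)).le_opNorm z).trans ?_
    gcongr
    exact (ALc Φ).le_opNorm (w - w₀)
  have h4 : ‖ALc Φ‖ * ‖w - w₀‖ * K ≤ 1 / 2 := by
    have h5 : ‖w - w₀‖ * (2 * K * (‖ALc Φ‖ + 1)) < 1 := by
      rwa [lt_div_iff₀ (by positivity)] at hw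
    nlinarith [norm_nonneg (w - w₀), norm_nonneg (ALc Φ), mul_nonneg (norm_nonneg (w - w₀)) hKpos.le]
  have h6 := hb z
  have h7 : ‖z‖ ≤ K * ‖LL Φ k₀ w z‖ + 1 / 2 * ‖z‖ := by
    calc ‖z‖ ≤ K * ‖LL Φ k₀ w₀ z‖ := h6
      _ ≤ K * (‖LL Φ k₀ w z‖ + ‖ALc Φ‖ * ‖w - w₀‖ * ‖z‖) := by gcongr
      _ = K * ‖LL Φ k₀ w z‖ + (‖ALc Φ‖ * ‖w - w₀‖ * K) * ‖z‖ := by ring
      _ ≤ K * ‖LL Φ k₀ w z‖ + 1 / 2 * ‖z‖ := by gcongr
  nlinarith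

/-- The normalised kernel vector near `w₀ ∈ D1`. -/
theorem exists_kernel_section {Φ : Sys} {w₀ : W} {k₀ : V} (h : UnitKer Φ w₀ k₀) :
    ∃ (U : Set W) (k : W → V) (C : ℝ≥0), IsOpen U ∧ w₀ ∈ U ∧ LipschitzOnWith C k (U ∩ D1 Φ) ∧
      (∀ w ∈ U ∩ D1 Φ, A Φ w (k w) = 0 ∧ ⟪k₀, k w⟫_ℝ = 1 ∧ ⟪J k₀, k w⟫_ℝ = 0) ∧
      (w₀ ∈ D1 Φ → k w₀ = k₀) := by
  classical
  obtain ⟨K, hK, U, hU, hw₀, hb⟩ := exists_LL_bound h
  have hex : ∀ w ∈ U ∩ D1 Φ, ∃ z, A Φ w z = 0 ∧ ⟪k₀, z⟫_ℝ = 1 ∧ ⟪J k₀, z⟫_ℝ = 0 := by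
    rintro w ⟨hwU, hwD⟩
    set T : LinearMap.ker (A Φ w).toLinearMap →ₗ[ℝ] ℝ × ℝ :=
      (nrm k₀ : V →ₗ[ℝ] ℝ × ℝ) ∘ₗ (LinearMap.ker (A Φ w).toLinearMap).subtype
    have hT : Function.Injective T := by
      rw [← LinearMap.ker_eq_bot, LinearMap.ker_eq_bot']
      rintro ⟨z, hz⟩ hTz
      have h1 := hb w hwU z
      have h2 : LL Φ k₀ w z = 0 := by
        have h3 : nrm k₀ z = 0 := hTz
        have h4 : A Φ w z = 0 := hz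
        change (A Φ w z, nrm k₀ z) = 0
        rw [h3, h4]; rfl
      rw [h2, norm_zero, mul_zero] at h1
      have h5 : z = 0 := norm_le_zero_iff.1 h1
      exact Subtype.ext h5
    have hT' : Function.Surjective T :=
      (LinearMap.injective_iff_surjective_of_finrank_eq_finrank (by rw [hwD.2]; simp)).1 hT
    obtain ⟨⟨z, hz⟩, hz1⟩ := hT' (1, 0)
    have h3 : nrm k₀ z = (1, 0) := hz1
    rw [nrm_apply, Prod.mk.injEq] at h3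
    exact ⟨z, hz, h3.1, h3.2⟩
  set k : W → V := fun w => if hw : ∃ z, A Φ w z = 0 ∧ ⟪k₀, z⟫_ℝ = 1 ∧ ⟪J k₀, z⟫_ℝ = 0
    then hw.choose else 0 with hkdef
  have hk : ∀ w ∈ U ∩ D1 Φ, A Φ w (k w) = 0 ∧ ⟪k₀, k w⟫_ℝ = 1 ∧ ⟪J k₀, k w⟫_ℝ = 0 := by
    intro w hw
    have h1 := hex w hw
    simp only [hkdef, dif_pos h1]
    exact h1.choose_spec
  have hkn : ∀ w ∈ U ∩ D1 Φ, ‖k w‖ ≤ K := by
    intro w hw
    obtain ⟨h1, h2, h3⟩ := hk w hw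
    have h4 := hb w hw.1 (k w)
    rw [LL_apply, h1, h2, h3, Prod.norm_def, Prod.norm_def] at h4
    simpa using h4
  have hdiff : ∀ w ∈ U, ∀ z z', A Φ w z = 0 → ⟪k₀, z⟫_ℝ = 1 → ⟪J k₀, z⟫_ℝ = 0 →
      ⟪k₀, z'⟫_ℝ = 1 → ⟪J k₀, z'⟫_ℝ = 0 → ‖z - z'‖ ≤ K * ‖A Φ w z'‖ := by
    intro w hw z z' h1 h2 h3 h4 h5
    have h6 := hb w hw (z - z')
    rw [LL_apply, map_sub, inner_sub_right, inner_sub_right, h1, h2, h3, h4, h5] at h6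
    rw [Prod.norm_def] at h6
    simpa using h6
  refine ⟨U, k, Real.toNNReal (K * ‖ALc Φ‖ * K), hU, hw₀, ?_, hk, ?_⟩
  · refine LipschitzOnWith.of_dist_le_mul fun w hw w' hw' => ?_
    rw [dist_eq_norm, dist_eq_norm, Real.coe_toNNReal _ (by positivity)]
    obtain ⟨h1, h2, h3⟩ := hk w hw
    obtain ⟨h1', h2', h3'⟩ := hk w' hw'
    have h4 := hdiff w hw.1 (k w) (k w') h1 h2 h3 h2' h3'
    have h5 : A Φ w (k w') = A Φ (w - w') (k w') := by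
      rw [A_sub, sub_apply, h1', sub_zero]
    rw [h5] at h4
    calc ‖k w - k w'‖ ≤ K * ‖A Φ (w - w') (k w')‖ := h4
      _ ≤ K * (‖ALc Φ‖ * ‖w - w'‖ * K) := by
        gcongr
        refine ((A Φ (w - w')).le_opNorm _).trans ?_
        gcongr
        · exact (ALc Φ).le_opNorm (w - w')
        · exact hkn w' hw'
      _ = K * ‖ALc Φ‖ * K * ‖w - w'‖ := by ring
  · intro hD
    obtain ⟨h1, h2, h3⟩ := hk w₀ ⟨hw₀, hD⟩
    have := h.span (k w₀) h1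
    rw [h2, h3] at this
    simpa using this

end

end Pool.Agent.Lib_helper32.Gen
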